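import Pool.Agent.DS90.Defs
import Pool.Agent.CB90.Down
import Pool.Agent.BF80.Val

/-!
# From solutions algebraic over the parameter to solutions in `k0`
-/

set_option maxSynthPendingDepth 10

namespace DS90

open FT80 BF80 LD90 Filter

namespace Dn

section map

variable {R S : Type*} [CommRing R] [CommRing S]

theorem pv_map (φ : R →+* S) (t : R) (s z : ℕ → R) (f : PZ) :
    pv (φ t) (fun i => φ (s i)) (fun i => φ (z i)) f = φ (pv t s z f) :=
  CB90.qv_map φ t s z f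

theorem DV_map (φ : R →+* S) {t a b : R} (h : DV t a b) : DV (φ t) (φ a) (φ b) := by
  obtain ⟨c, ⟨y, hy⟩, rfl⟩ := h
  refine ⟨φ c, ⟨φ y, ?_⟩, (map_mul φ c a).symm⟩
  rw [← map_pow, ← map_add, hy, map_mul, map_pow]

theorem PSol_map (φ : R →+* S) (hφ : Function.Injective φ) {t : R} {a : Inp}
    (h : PSol t (DV t) a) : PSol (φ t) (DV (φ t)) a := by
  obtain ⟨B, E, N, F, Q, V⟩ := a
  obtain ⟨s, z, hB, hE, hN, hF, hQ, hV⟩ := h
  refine ⟨fun i => φ (s i), fun i => φ (z i), CB90.Base.map φ hφ hB, fun l hl => ?_,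
    fun l hl => ?_, fun m hm => ?_, fun m hm => ?_, fun m hm => ?_⟩
  · rw [pv_map, hE l hl, map_zero]
  · rw [pv_map]
    exact fun h => hN l hl ((map_eq_zero_iff φ hφ).1 h)
  · obtain ⟨y, hy⟩ := hF m hm
    exact ⟨fun i => φ (y i), by rw [pv_map, CB90.ev_map', hy]⟩
  · obtain ⟨x, hx⟩ := hQ m hm
    exact ⟨fun i => φ (x i), by rw [pv_map, pv_map, hx]⟩
  · rw [pv_map, pv_map]
    exact DV_map φ (hV m hm)

end map

/-- from the ultrapower to the field -/
theorem psol_of_up {K : Type} [Field K] (t : K) (a : Inp)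
    (h : PSol (diag K t) (DV (diag K t)) a) : PSol t (DV t) a := by
  obtain ⟨B, E, N, F, Q, V⟩ := a
  obtain ⟨sU, zU, hB, hE, hN, hF, hQ, hV⟩ := h
  have hS : ∀ i, ∃ r : ℕ → K, cl K r = sU i := fun i => cl_surj _
  choose S hS using hS
  obtain rfl : (fun i => cl K (S i)) = sU := funext hS
  have hZ : ∀ i, ∃ r : ℕ → K, cl K r = zU i := fun i => cl_surj _
  choose Z hZ using hZ
  obtain rfl : (fun i => cl K (Z i)) = zU := funext hZ
  have ht : diag K t = cl K (fun _ => t) := (cl_const t).symm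
  have eev : ∀ (S : ℕ → (ℕ → K)) (b : PL) (n : ℕ),
      ev (fun _ : ℕ => t) S b n = ev t (fun i => S i n) b := by
    intro S b n
    exact (CB90.ev_map' (Pi.evalRingHom (fun _ : ℕ => K) n) (fun _ => t) S b).symm
  have epv : ∀ (S Z : ℕ → (ℕ → K)) (l : PZ) (n : ℕ),
      pv (fun _ : ℕ => t) S Z l n = pv t (fun i => S i n) (fun i => Z i n) l := by
    intro S Z l n
    exact (pv_map (Pi.evalRingHom (fun _ : ℕ => K) n) (fun _ => t) S Z l).symm
  have c1 : ∀ᶠ n in ((hyperfilter ℕ : Ultrafilter ℕ) : Filter ℕ),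
      ∀ i ∈ Finset.range B.length, ∀ b, B[i]? = some b → ev t (fun i => S i n) b = 0 ∧
        ∃ z, ev t (Function.update (fun j => S j n) (i + 1) z) b ≠ 0 := by
    rw [eventually_all_finset]
    intro i _
    rcases hb : B[i]? with _ | b
    · exact Eventually.of_forall fun n b hb' => by simp at hb'
    · obtain ⟨h1, wU, h2⟩ := hB i b hb
      obtain ⟨w, rfl⟩ := cl_surj wU
      have h3 : ∀ᶠ n in ((hyperfilter ℕ : Ultrafilter ℕ) : Filter ℕ),
          ev t (fun i => S i n) b = 0 := by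
        rw [ht, CB90.ev_map', ← map_zero (cl K), cl_eq] at h1
        filter_upwards [h1] with n hn
        rw [← eev, hn]
        rfl
      have h4 : ∀ᶠ n in ((hyperfilter ℕ : Ultrafilter ℕ) : Filter ℕ),
          ev t (fun j => Function.update S (i + 1) w j n) b ≠ 0 := by
        by_contra hcon
        rw [← Ultrafilter.eventually_not] at hcon
        apply h2
        rw [← CB90.update_map, ht, CB90.ev_map', ← map_zero (cl K), cl_eq]
        filter_upwards [hcon] with n hn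
        rw [eev]
        exact not_not.1 hn
      filter_upwards [h3, h4] with n h5 h6 b' hb'
      obtain rfl : b = b' := Option.some.inj hb'
      refine ⟨h5, w n, ?_⟩
      have e' : (fun j => Function.update S (i + 1) w j n)
          = Function.update (fun j => S j n) (i + 1) (w n) :=
        CB90.update_map (Pi.evalRingHom (fun _ : ℕ => K) n) S (i + 1) w
      rw [← e']
      exact h6
  have c2 : ∀ᶠ n in ((hyperfilter ℕ : Ultrafilter ℕ) : Filter ℕ),
      ∀ l ∈ {l | l ∈ E}, pv t (fun i => S i n) (fun i => Z i n) l = 0 := by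
    rw [Filter.eventually_all_finite (List.finite_toSet E)]
    intro l hl
    have h1 := hE l hl
    rw [ht, pv_map, ← map_zero (cl K), cl_eq] at h1
    filter_upwards [h1] with n hn
    rw [← epv, hn]
    rfl
  have c3 : ∀ᶠ n in ((hyperfilter ℕ : Ultrafilter ℕ) : Filter ℕ),
      ∀ l ∈ {l | l ∈ N}, pv t (fun i => S i n) (fun i => Z i n) l ≠ 0 := by
    rw [Filter.eventually_all_finite (List.finite_toSet N)]
    intro l hl
    by_contra hcon
    rw [← Ultrafilter.eventually_not] at hcon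
    apply hN l hl
    rw [ht, pv_map, ← map_zero (cl K), cl_eq]
    filter_upwards [hcon] with n hn
    rw [epv]
    exact not_not.1 hn
  have c4 : ∀ᶠ n in ((hyperfilter ℕ : Ultrafilter ℕ) : Filter ℕ),
      ∀ m ∈ {m | m ∈ F}, ∃ y : ℕ → K, pv t (fun i => S i n) (fun i => Z i n) m.1 = ev t y m.2 := by
    rw [Filter.eventually_all_finite (List.finite_toSet F)]
    intro m hm
    obtain ⟨y, hy⟩ := hF m hm
    have hY : ∀ i, ∃ r : ℕ → K, cl K r = y i := fun i => cl_surj _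
    choose Y hY using hY
    obtain rfl : (fun i => cl K (Y i)) = y := funext hY
    rw [ht, pv_map, CB90.ev_map', cl_eq] at hy
    filter_upwards [hy] with n hn
    exact ⟨fun i => Y i n, by rw [← epv, ← eev, hn]⟩
  have c5 : ∀ᶠ n in ((hyperfilter ℕ : Ultrafilter ℕ) : Filter ℕ),
      ∀ m ∈ {m | m ∈ Q}, ∃ x : ℕ → K, pv t (fun i => S i n) (fun i => Z i n) m.1 =
        pv t (fun i => S i n) x m.2 := by
    rw [Filter.eventually_all_finite (List.finite_toSet Q)]
    intro m hm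
    obtain ⟨y, hy⟩ := hQ m hm
    have hY : ∀ i, ∃ r : ℕ → K, cl K r = y i := fun i => cl_surj _
    choose Y hY using hY
    obtain rfl : (fun i => cl K (Y i)) = y := funext hY
    rw [ht, pv_map, pv_map, cl_eq] at hy
    filter_upwards [hy] with n hn
    exact ⟨fun i => Y i n, by rw [← epv, ← epv, hn]⟩
  have c6 : ∀ᶠ n in ((hyperfilter ℕ : Ultrafilter ℕ) : Filter ℕ),
      ∀ m ∈ {m | m ∈ V}, DV t (pv t (fun i => S i n) (fun i => Z i n) m.1)
        (pv t (fun i => S i n) (fun i => Z i n) m.2) := by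
    rw [Filter.eventually_all_finite (List.finite_toSet V)]
    intro m hm
    obtain ⟨c, ⟨y, hy⟩, hc⟩ := hV m hm
    obtain ⟨c, rfl⟩ := cl_surj c
    obtain ⟨y, rfl⟩ := cl_surj y
    rw [ht, ← map_pow, ← map_add, ← map_pow, ← map_mul, cl_eq] at hy
    rw [ht, pv_map, pv_map, ← map_mul, cl_eq] at hc
    filter_upwards [hy, hc] with n h1 h2
    refine ⟨c n, ⟨y n, h1⟩, ?_⟩
    rw [← epv, ← epv, ← h2]
    rfl
  obtain ⟨n, h1, h2, h3, h4, h5, h6⟩ := (c1.and (c2.and (c3.and (c4.and (c5.and c6))))).exists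
  refine ⟨fun i => S i n, fun i => Z i n, fun i b hb => ?_, fun l hl => h2 l hl,
    fun l hl => h3 l hl, fun m hm => h4 m hm, fun m hm => h5 m hm, fun m hm => h6 m hm⟩
  have hi : i < B.length := (List.getElem?_eq_some_iff.1 hb).1
  exact h1 i (Finset.mem_range.2 hi) b hb

/-- from elements of a subfield to the subfield -/
theorem psol_sub {L : Type*} [Field L] (A : Subfield L) [Infinite A] (t : L) (ht : t ∈ A)
    (hA : ∀ c y : L, c ∈ A → y ^ 2 + y = t * c ^ 2 → y ∈ A) (a : Inp) (s z : ℕ → L)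
    (hs : ∀ i, s i ∈ A) (hz : ∀ i, z i ∈ A) (hB : Base t a.1 s)
    (hE : ∀ l ∈ a.2.1, pv t s z l = 0)
    (hN : ∀ l ∈ a.2.2.1, pv t s z l ≠ 0)
    (hF : ∀ m ∈ a.2.2.2.1, ∃ y : ℕ → L, (∀ i, y i ∈ A) ∧ pv t s z m.1 = ev t y m.2)
    (hQ : ∀ m ∈ a.2.2.2.2.1, ∃ x : ℕ → L, (∀ i, x i ∈ A) ∧ pv t s z m.1 = pv t s x m.2)
    (hV : ∀ m ∈ a.2.2.2.2.2, DV t (pv t s z m.1) (pv t s z m.2)) :
    PSol (⟨t, ht⟩ : A) (DV (⟨t, ht⟩ : A)) a := by
  obtain ⟨B, E, N, F, Q, V⟩ := a
  obtain ⟨S, rfl⟩ : ∃ S : ℕ → A, (fun i => A.subtype (S i)) = s := ⟨fun i => ⟨s i, hs i⟩, rfl⟩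
  obtain ⟨Z, rfl⟩ : ∃ Z : ℕ → A, (fun i => A.subtype (Z i)) = z := ⟨fun i => ⟨z i, hz i⟩, rfl⟩
  obtain ⟨T, hT, rfl⟩ : ∃ T : A, T = ⟨t, ht⟩ ∧ A.subtype T = t := ⟨⟨t, ht⟩, rfl, rfl⟩
  rw [← hT]
  have hinj : Function.Injective A.subtype := A.subtype.injective
  have key : ∀ x y : A, A.subtype x = A.subtype y → x = y := fun x y h => hinj h
  refine ⟨S, Z, fun i b hb => ?_, fun l hl => ?_, fun l hl => ?_, fun m hm => ?_, fun m hm => ?_,
    fun m hm => ?_⟩
  · obtain ⟨h1, w, h2⟩ := hB i b hb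
    rw [CB90.ev_map'] at h1
    refine ⟨(map_eq_zero_iff _ hinj).1 h1, ?_⟩
    obtain ⟨w, hw, hw'⟩ := CB90.down_z A (A.subtype T) ht (fun i => A.subtype (S i)) hs (i + 1) b
      ⟨w, h2⟩
    refine ⟨⟨w, hw⟩, ?_⟩
    intro h3
    apply hw'
    have h4 := CB90.ev_map' A.subtype T (Function.update S (i + 1) ⟨w, hw⟩) b
    rw [h3, map_zero, CB90.update_map] at h4
    exact h4
  · have h1 := hE l hl
    rw [pv_map] at h1
    exact (map_eq_zero_iff _ hinj).1 h1
  · intro h1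
    apply hN l hl
    rw [pv_map, h1, map_zero]
  · obtain ⟨y, hy, h1⟩ := hF m hm
    obtain ⟨Y, rfl⟩ : ∃ Y : ℕ → A, (fun i => A.subtype (Y i)) = y := ⟨fun i => ⟨y i, hy i⟩, rfl⟩
    rw [pv_map, CB90.ev_map'] at h1
    exact ⟨Y, key _ _ h1⟩
  · obtain ⟨y, hy, h1⟩ := hQ m hm
    obtain ⟨Y, rfl⟩ : ∃ Y : ℕ → A, (fun i => A.subtype (Y i)) = y := ⟨fun i => ⟨y i, hy i⟩, rfl⟩
    rw [pv_map, pv_map] at h1
    exact ⟨Y, key _ _ h1⟩
  · obtain ⟨c, ⟨y, hy⟩, hc⟩ := hV m hm
    rw [pv_map, pv_map] at hc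
    by_cases h0 : pv T S Z m.1 = 0
    · rw [h0, map_zero, mul_zero] at hc
      have h1 : pv T S Z m.2 = 0 := (map_eq_zero_iff _ hinj).1 hc.symm
      exact ⟨0, ⟨0, by ring⟩, by rw [h0, h1, mul_zero]⟩
    · have h0' : A.subtype (pv T S Z m.1) ≠ 0 := fun h => h0 ((map_eq_zero_iff _ hinj).1 h)
      have hcA : c ∈ A := by
        have h1 : c = A.subtype (pv T S Z m.2 / pv T S Z m.1) := by
          rw [map_div₀, ← hc, mul_div_cancel_right₀ _ h0']
        rw [h1]
        exact (pv T S Z m.2 / pv T S Z m.1).2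
      have hyA : y ∈ A := hA c y hcA hy
      exact ⟨⟨c, hcA⟩, ⟨⟨y, hyA⟩, Subtype.ext hy⟩, Subtype.ext hc⟩

theorem quad_mem {R L : Type*} [CommRing R] [IsDomain R] [Field L] {τ : R →+* L} {t c y : L}
    (ht : t ∈ algField τ) (hc : c ∈ algField τ) (h : y ^ 2 + y = t * c ^ 2) : y ∈ algField τ := by
  have hN : (Polynomial.X ^ 2 + Polynomial.X - Polynomial.C ((⟨t, ht⟩ : algField τ) *
      ⟨c, hc⟩ ^ 2) : Polynomial (algField τ)) ≠ 0 := by
    intro h0
    have h1 := congrArg (fun q => q.coeff 2) h0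
    simp [Polynomial.coeff_X] at h1
  refine BF80.CI.alg1_of_alg hN ?_
  rw [Polynomial.eval₂_sub, Polynomial.eval₂_add, Polynomial.eval₂_pow, Polynomial.eval₂_X,
    Polynomial.eval₂_C, h]
  exact sub_self _

end Dn

/-- DS-4 (Down.lean): from elements algebraic over the parameter to `k0` -/
theorem down {p : ℕ} [Fact p.Prime] {M : Type} [Field M] {σ : P1 p →+* M} (hM : Mdl p σ)
    (a : Inp) (s z : ℕ → M) (hs : ∀ i, OP90.RAlg σ (s 0) (s i))
    (hz : ∀ i, OP90.RAlg σ (s 0) (z i)) (hB : Base (σ Polynomial.X) a.1 s)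
    (hE : ∀ l ∈ a.2.1, pv (σ Polynomial.X) s z l = 0)
    (hN : ∀ l ∈ a.2.2.1, pv (σ Polynomial.X) s z l ≠ 0)
    (hF : ∀ m ∈ a.2.2.2.1, ∃ y : ℕ → M, (∀ i, OP90.RAlg σ (s 0) (y i)) ∧
      pv (σ Polynomial.X) s z m.1 = ev (σ Polynomial.X) y m.2)
    (hQ : ∀ m ∈ a.2.2.2.2.1, ∃ x : ℕ → M, (∀ i, OP90.RAlg σ (s 0) (x i)) ∧
      pv (σ Polynomial.X) s z m.1 = pv (σ Polynomial.X) s x m.2)
    (hV : ∀ m ∈ a.2.2.2.2.2, DV (σ Polynomial.X) (pv (σ Polynomial.X) s z m.1)
      (pv (σ Polynomial.X) s z m.2)) :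
    PSol (sig0 p Polynomial.X) (DV (sig0 p Polynomial.X)) a := by
  have hσinf : ∀ E : Subfield M, (∀ f, σ f ∈ E) → Infinite E := by
    intro E hE
    have hinj : Function.Injective (σ.codRestrict E hE) := by
      intro u v huv
      exact hM.σ_injective (congrArg Subtype.val huv)
    exact Infinite.of_injective _ hinj
  by_cases h0 : BF80.Alg1 σ (s 0)
  · -- everything is algebraic over `F_p(t)`
    obtain ⟨j, hj, hj2, -⟩ := hM.exists_j
    have hE' : ∀ f, σ f ∈ algField σ := fun f => (hj2 _).2 ⟨_, hj f⟩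
    have hinf : Infinite (algField σ) := hσinf _ hE'
    have h1 := Dn.psol_sub (algField σ) (σ Polynomial.X) (hE' _)
      (fun c y hc h => Dn.quad_mem (hE' _) hc h) a s z (fun i => (hs i).1 h0)
      (fun i => (hz i).1 h0) hB hE hN
      (fun m hm => by
        obtain ⟨y, hy, h⟩ := hF m hm
        exact ⟨y, fun i => (hy i).1 h0, h⟩)
      (fun m hm => by
        obtain ⟨y, hy, h⟩ := hQ m hm
        exact ⟨y, fun i => (hy i).1 h0, h⟩) hV
    obtain ⟨ι, hι⟩ := BF80.CI.exists_lift_hom (algField σ).subtype j j.injective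
      (fun x => (hj2 _).1 x.2)
    have h2 := Dn.PSol_map ι ι.injective h1
    have h3 : ι ⟨σ Polynomial.X, hE' _⟩ = sig0 p Polynomial.X := by
      apply j.injective
      rw [hι, hj]
      rfl
    rw [h3] at h2
    exact h2
  · -- the parameter is transcendental
    apply Dn.psol_of_up
    obtain ⟨ι, hι, hsA, -⟩ := starC hM (s 0) h0 ∅ Set.countable_empty
    obtain ⟨htA, htι⟩ := hι Polynomial.X
    have hE' : ∀ f, σ f ∈ algField (ev1 σ (s 0)) := fun f => (hι f).1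
    have hinf : Infinite (algField (ev1 σ (s 0))) := hσinf _ hE'
    rw [← htι]
    refine Dn.PSol_map ι ι.injective ?_
    exact Dn.psol_sub (algField (ev1 σ (s 0))) (σ Polynomial.X) htA
      (fun c y hc h => Dn.quad_mem htA hc h) a s z (fun i => (hs i).2)
      (fun i => (hz i).2) hB hE hN
      (fun m hm => by
        obtain ⟨y, hy, h⟩ := hF m hm
        exact ⟨y, fun i => (hy i).2, h⟩)
      (fun m hm => by
        obtain ⟨y, hy, h⟩ := hQ m hm
        exact ⟨y, fun i => (hy i).2, h⟩) hV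

end DS90
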