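import Pool.Agent.DS90.Defs
import Pool.Agent.CB90.Trunc
import Pool.Agent.BF80.Defs3

/-!
# Solvability and ring homomorphisms; only finitely many base variables matter
-/

namespace DS90

open LD90 BF80

theorem base_iff {R : Type*} [CommRing R] {t : R} {B : List PL} {s : ℕ → R} :
    Base t B s ↔ CB90.Base t B s := Iff.rfl

theorem vars_iff {n : ℕ} {c : PL} : Vars n c ↔ CB90.Vars n c := Iff.rfl

theorem pv_eq {R : Type*} [CommRing R] (t : R) (s z : ℕ → R) (f : PZ) :
    pv t s z f = CB90.qv t s z f := rfl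

/-- DS-2 (Map.lean) -/
theorem pv_map {R S : Type*} [CommRing R] [CommRing S] (φ : R →+* S) (t : R) (s z : ℕ → R)
    (f : PZ) : pv (φ t) (fun i => φ (s i)) (fun i => φ (z i)) f = φ (pv t s z f) :=
  CB90.qv_map φ t s z f

theorem DV.map {R S : Type*} [CommRing R] [CommRing S] (φ : R →+* S) {t a b : R}
    (h : DV t a b) : DV (φ t) (φ a) (φ b) := by
  obtain ⟨c, ⟨y, h1⟩, h2⟩ := h
  refine ⟨φ c, ⟨φ y, ?_⟩, ?_⟩
  · simpa using congrArg φ h1
  · simpa using congrArg φ h2

/-- DS-2 (Map.lean) -/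
theorem PSol.map {R S : Type*} [CommRing R] [CommRing S] (φ : R →+* S)
    (hφ : Function.Injective φ) {t : R} {a : Inp} (h : PSol t (DV t) a) :
    PSol (φ t) (DV (φ t)) a := by
  obtain ⟨B, E, N, F, Q, V⟩ := a
  obtain ⟨s, z, h0, hE, hN, hF, hQ, hV⟩ := h
  refine ⟨fun i => φ (s i), fun i => φ (z i), CB90.Base.map φ hφ h0, fun l hl => ?_,
    fun l hl => ?_, fun m hm => ?_, fun m hm => ?_, fun m hm => ?_⟩
  · rw [pv_map, hE l hl, map_zero]
  · rw [pv_map]
    exact fun h => hN l hl ((map_eq_zero_iff φ hφ).1 h)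
  · obtain ⟨y, hy⟩ := hF m hm
    exact ⟨fun i => φ (y i), by rw [pv_map, hy, CB90.ev_map']⟩
  · obtain ⟨x, hx⟩ := hQ m hm
    exact ⟨fun i => φ (x i), by rw [pv_map, hx, pv_map]⟩
  · rw [pv_map, pv_map]
    exact DV.map φ (hV m hm)

theorem pv_congr_s {R : Type*} [CommRing R] {n d : ℕ} (t : R) {s s' : ℕ → R}
    (h : ∀ i ≤ n, s i = s' i) (z : ℕ → R) {f : PZ} (hf : Deg n d f) :
    pv t s z f = pv t s' z f :=
  CB90.qv_congr_s t h z f fun m hm => (hf m hm).1

/-- DS-2 (Map.lean): the other base variables are irrelevant -/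
theorem trunc {R : Type*} [CommRing R] {p : ℕ} (t : R) (r : R → R → Prop) (a : Inp)
    (ha : Adm p a) (h : PSol t r a) :
    ∃ s z : ℕ → R, (∀ i, a.1.length < i → s i = 0) ∧ Base t a.1 s ∧
    (∀ l ∈ a.2.1, pv t s z l = 0) ∧
    (∀ l ∈ a.2.2.1, pv t s z l ≠ 0) ∧
    (∀ m ∈ a.2.2.2.1, ∃ y : ℕ → R, pv t s z m.1 = ev t y m.2) ∧
    (∀ m ∈ a.2.2.2.2.1, ∃ x : ℕ → R, pv t s z m.1 = pv t s x m.2) ∧
    ∀ m ∈ a.2.2.2.2.2, r (pv t s z m.1) (pv t s z m.2) := by
  obtain ⟨B, E, N, F, Q, V⟩ := a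
  obtain ⟨s, z, h0, hE, hN, hF, hQ, hV⟩ := h
  obtain ⟨a1, aE, aN, aF, aQ, aV⟩ := ha
  set s' : ℕ → R := fun i => if i ≤ B.length then s i else 0 with hs'
  have hss : ∀ i ≤ B.length, s i = s' i := fun i hi => by
    simp only [hs', if_pos hi]
  have hb : Base t B s' := by
    intro i b hb
    have hi : i + 1 ≤ B.length := by
      have := (List.getElem?_eq_some_iff.1 hb).1
      omega
    obtain ⟨h4, z, h5⟩ := h0 i b hb
    have h6 : ∀ j ≤ i + 1, s j = s' j := fun j hj => hss j (hj.trans hi)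
    refine ⟨?_, z, ?_⟩
    · rw [← CB90.ev_congr (a1 i b hb) t h6]
      exact h4
    · rw [← CB90.ev_congr (a1 i b hb) t (s := Function.update s (i + 1) z)]
      · exact h5
      · intro j hj
        by_cases hji : j = i + 1
        · subst hji
          rw [Function.update_self, Function.update_self]
        · rw [Function.update_of_ne hji, Function.update_of_ne hji]
          exact h6 j hj
  refine ⟨s', z, fun i hi => by simp only [hs']; exact if_neg (by simpa using hi), hb,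
    fun l hl => ?_, fun l hl => ?_, fun m hm => ?_, fun m hm => ?_, fun m hm => ?_⟩
  · rw [← pv_congr_s t hss z (aE l hl)]
    exact hE l hl
  · rw [← pv_congr_s t hss z (aN l hl)]
    exact hN l hl
  · rw [← pv_congr_s t hss z (aF m hm).1]
    exact hF m hm
  · obtain ⟨x, hx⟩ := hQ m hm
    refine ⟨x, ?_⟩
    rw [← pv_congr_s t hss z (aQ m hm).1, ← pv_congr_s t hss x (aQ m hm).2]
    exact hx
  · rw [← pv_congr_s t hss z (aV m hm).1, ← pv_congr_s t hss z (aV m hm).2]
    exact hV m hm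

end DS90
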