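import Pool.Agent.LD90.Defs

/-!
# Systems over a base of dimension one: definitions

The base variables are `s_0, s_1, …`; polynomials over `F_p[t]` in them are given as lists of
monomials (`LD90.PL`, with values `LD90.ev`). Polynomials in auxiliary variables `z_0, z_1, …` with
such coefficients are given as lists of pairs.
-/

namespace DS90

open LD90

/-- polynomials in auxiliary variables: the pair `(c, l)` stands for `c(s) * ∏_{i ∈ l} z_i` -/
abbrev PZ := List (PL × List ℕ)

/-- the value of such a polynomial -/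
def pv {R : Type*} [CommRing R] (t : R) (s z : ℕ → R) (f : PZ) : R :=
  (f.map fun m => ev t s m.1 * (m.2.map z).prod).sum

/-- the base: for every `i`, the polynomial `B_i` vanishes at `s`, but not identically in
`s_{i+1}` -/
def Base {R : Type*} [CommRing R] (t : R) (B : List PL) (s : ℕ → R) : Prop :=
  ∀ i b, B[i]? = some b → ev t s b = 0 ∧ ∃ z, ev t (Function.update s (i + 1) z) b ≠ 0

/-- the variables of the polynomial are among `s_0, …, s_n` -/
def Vars (n : ℕ) (c : PL) : Prop := ∀ m ∈ c, ∀ i ∈ m.2, i ≤ n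

/-- the degree in the auxiliary variables is at most `d`, the coefficients are polynomials in
`s_0, …, s_n` -/
def Deg (n d : ℕ) (f : PZ) : Prop := ∀ m ∈ f, Vars n m.1 ∧ m.2.length ≤ d

/-- `F` is a form, its degree is prime to `p`, and the degree is at most `3` or `F` is of the
form `c * y_0 ^ d` -/
def Form (p : ℕ) (F : PL) : Prop :=
  ∃ d, ¬ p ∣ d ∧ (∀ m ∈ F, m.2.length = d) ∧ (d ≤ 3 ∨ ∀ m ∈ F, ∀ i ∈ m.2, i = 0)

/-- inputs `(B, E, N, F, Q, V)` -/
abbrev Inp := List PL × List PZ × List PZ × List (PZ × PL) × List (PZ × PZ) × List (PZ × PZ)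

/-- the conditions on inputs: `B_i` is a polynomial in `s_0, …, s_{i+1}`; the other coefficients are
polynomials in `s_0, …, s_n`, where `n` is the length of `B`; the polynomials `l` are of degree at
most `1` and the polynomials `q` are of degree at most `2` (at most `1` if `p = 2`) in the auxiliary
variables; the forms are as in `Form` -/
def Adm (p : ℕ) : Inp → Prop
  | (B, E, N, F, Q, V) =>
    (∀ i b, B[i]? = some b → Vars (i + 1) b) ∧
    (∀ l ∈ E, Deg B.length 1 l) ∧
    (∀ l ∈ N, Deg B.length 1 l) ∧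
    (∀ m ∈ F, Deg B.length 1 m.1 ∧ Form p m.2) ∧
    (∀ m ∈ Q, Deg B.length 1 m.1 ∧ Deg B.length (if p = 2 then 1 else 2) m.2) ∧
    ∀ m ∈ V, Deg B.length 1 m.1 ∧ Deg B.length 1 m.2

/-- there are a point `s` of the base and `z` such that `l(s,z) = 0` for `l` in `E`, `l(s,z) ≠ 0`
for `l` in `N`, `l(s,z)` is a value of the form `F` for the pairs `(l, F)` in `F`, a value of
`q(s,·)` for the pairs `(l, q)` in `Q`, and `l(s,z)` divides `l'(s,z)` for the pairs `(l, l')` in
`V`, where divisibility is read by the relation `r` -/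
def PSol {R : Type*} [CommRing R] (t : R) (r : R → R → Prop) : Inp → Prop
  | (B, E, N, F, Q, V) => ∃ s z : ℕ → R, Base t B s ∧
    (∀ l ∈ E, pv t s z l = 0) ∧
    (∀ l ∈ N, pv t s z l ≠ 0) ∧
    (∀ m ∈ F, ∃ y : ℕ → R, pv t s z m.1 = ev t y m.2) ∧
    (∀ m ∈ Q, ∃ x : ℕ → R, pv t s z m.1 = pv t s x m.2) ∧
    ∀ m ∈ V, r (pv t s z m.1) (pv t s z m.2)

end DS90
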