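import Pool.Agent.DS90.Defs
import Pool.Agent.FB90.Dec
import Pool.Agent.BF80.Defs3

/-!
# The decision wrapper for systems over a base of dimension one

The problem is translated into a system in the sense of `LD90`: the base variable `s_i` is the
variable `8 * i`, the variable `z_i` is `8 * i + 1`, the witness for the polynomial `B_i` is
`8 * i + 2`, the auxiliary variables of the condition number `j` given by a form are
`8 * pair j k + 3`, those of the condition number `j` given by a polynomial of degree two are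
`8 * pair j k + 4`, and the quotient of the condition number `j` on divisibility is `8 * j + 5`;
the variable `8 * j + 6` shows that it is in the valuation ring.
-/

set_option maxSynthPendingDepth 10
set_option autoImplicit false

open Polynomial

namespace DS90

open FT80 BF80 LD90

namespace De

open CB90.De (ren mulP)

/-- the variable `s_i` -/
def vs (i : ℕ) : ℕ := 8 * i

/-- the variable `z_i` -/
def vz (i : ℕ) : ℕ := 8 * i + 1

/-- the variables `y_k` of the condition number `j` -/
def vy (j k : ℕ) : ℕ := 8 * Nat.pair j k + 3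

/-- the variables `x_k` of the condition number `j` -/
def vx (j k : ℕ) : ℕ := 8 * Nat.pair j k + 4

/-- the quotient of the condition number `j` -/
def vc (j : ℕ) : ℕ := 8 * j + 5

/-- the witness for the quotient of the condition number `j` -/
def vd (j : ℕ) : ℕ := 8 * j + 6

/-- the variables of `B_i` at the witness -/
def vu (i j : ℕ) : ℕ := if j = i + 1 then 8 * i + 2 else 8 * j

/-- the monomials of `c(s) * w` -/
def mul1 (w : List ℕ) (c : PL) : PL := c.map fun m => (m.1, m.2.map vs ++ w)

/-- the polynomial in the auxiliary variables `w i` -/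
def pq (w : ℕ → ℕ) (l : PZ) : PL := l.flatMap fun m => mul1 (m.2.map w) m.1

/-- the negative in characteristic `p` -/
def neg (p : ℕ) (f : PL) : PL := (List.range (p - 1)).flatMap fun _ => f

/-- a condition given by a form -/
def fE (p : ℕ) (j : ℕ) (m : PZ × PL) : PL := pq vz m.1 ++ neg p (ren (vy j) m.2)

/-- a condition given by a polynomial of degree two -/
def qE (p : ℕ) (j : ℕ) (m : PZ × PZ) : PL := pq vz m.1 ++ neg p (pq (vx j) m.2)

/-- a condition on divisibility: the quotient -/
def cE (p : ℕ) (j : ℕ) (m : PZ × PZ) : PL :=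
  mulP [(0, [vc j])] (pq vz m.1) ++ neg p (pq vz m.2)

/-- a condition on divisibility: the quotient is in the valuation ring -/
def dE (p : ℕ) (j : ℕ) : PL := [(0, [vd j, vd j]), (0, [vd j])] ++ neg p [(1, [vc j, vc j])]

/-- the equations of the numbered conditions -/
def idx {α : Type} (d : α) (G : ℕ → α → PL) (L : List α) : List PL :=
  (List.range L.length).map fun j => G j (L.getD j d)

/-- the product of the polynomials in the list -/
def pN (N : List PZ) : PL := N.foldr (fun l c => mulP (pq vz l) c) [(0, [])]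

/-- the product of the inequations and the polynomials of the base at the witnesses -/
def pB (B : List PL) (N : List PZ) (n : ℕ) : PL :=
  n.rec (pN N) fun i c => mulP c (ren (vu i) (B.getD i []))

/-- the translation -/
def tr (p : ℕ) (a : Inp) : List PL × PL :=
  (a.1.map (ren vs) ++ (a.2.1.map (pq vz) ++ (idx ([], []) (fE p) a.2.2.2.1 ++
    (idx ([], []) (qE p) a.2.2.2.2.1 ++ (idx ([], []) (cE p) a.2.2.2.2.2 ++
      idx ([], []) (fun j _ => dE p j) a.2.2.2.2.2)))),
    pB a.1 a.2.2.1 a.1.length)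

section sem

variable {R : Type*} [CommRing R] (t : R)

theorem ev_append (X : ℕ → R) (f g : PL) : ev t X (f ++ g) = ev t X f + ev t X g := by
  simp [ev]

theorem ev_cons (X : ℕ → R) (m : ℕ × List ℕ) (f : PL) :
    ev t X (m :: f) = t ^ m.1 * (m.2.map X).prod + ev t X f := by
  simp [ev]

theorem ev_mul1 (X : ℕ → R) (w : List ℕ) (c : PL) :
    ev t X (mul1 w c) = ev t (fun i => X (vs i)) c * (w.map X).prod := by
  induction c with
  | nil => simp [ev, mul1]
  | cons m c ih =>
    have h1 : mul1 w (m :: c) = (m.1, m.2.map vs ++ w) :: mul1 w c := by simp [mul1]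
    rw [h1, ev_cons, ev_cons, ih, List.map_append, List.prod_append, List.map_map]
    have h2 : (X ∘ vs) = fun i => X (vs i) := rfl
    rw [h2]
    ring

theorem ev_pq (X : ℕ → R) (w : ℕ → ℕ) (l : PZ) :
    ev t X (pq w l) = pv t (fun i => X (vs i)) (fun i => X (w i)) l := by
  induction l with
  | nil => simp [ev, pq, pv]
  | cons m l ih =>
    have h1 : pq w (m :: l) = mul1 (m.2.map w) m.1 ++ pq w l := by simp [pq]
    have h2 : pv t (fun i => X (vs i)) (fun i => X (w i)) (m :: l) =
        ev t (fun i => X (vs i)) m.1 * (m.2.map fun i => X (w i)).prod +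
          pv t (fun i => X (vs i)) (fun i => X (w i)) l := by simp [pv]
    rw [h1, h2, ev_append, ev_mul1, ih, List.map_map]
    rfl

theorem ev_neg {p : ℕ} (hp : 1 ≤ p) (hR : (p : R) = 0) (X : ℕ → R) (f : PL) :
    ev t X (neg p f) = - ev t X f := by
  have h1 : ∀ n : ℕ, ev t X ((List.range n).flatMap fun _ => f) = (n : R) * ev t X f := by
    intro n
    induction n with
    | zero => simp [ev]
    | succ n ih =>
      rw [List.range_succ, List.flatMap_append, ev_append, ih]
      simp only [List.flatMap_cons, List.flatMap_nil, List.append_nil]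
      push_cast
      ring
  have h2 : ((p - 1 : ℕ) : R) = -1 := by
    rw [Nat.cast_sub hp, hR]
    simp
  rw [neg, h1, h2]
  ring

theorem mem_idx {α : Type} (d : α) (G : ℕ → α → PL) (L : List α) (P : PL → Prop) :
    (∀ g ∈ idx d G L, P g) ↔ ∀ j < L.length, P (G j (L.getD j d)) := by
  rw [idx, List.forall_mem_map]
  simp only [List.mem_range]

theorem mem_getD {α : Type} (d : α) (L : List α) (Q : α → Prop) :
    (∀ m ∈ L, Q m) ↔ ∀ j < L.length, Q (L.getD j d) := by
  constructor
  · intro h j hj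
    rw [List.getD_eq_getElem?_getD, List.getElem?_eq_getElem hj]
    exact h _ (List.getElem_mem hj)
  · intro h m hm
    obtain ⟨j, hj, rfl⟩ := List.mem_iff_getElem.1 hm
    have := h j hj
    rw [List.getD_eq_getElem?_getD, List.getElem?_eq_getElem hj] at this
    exact this

theorem ev_pN_ne [IsDomain R] (X : ℕ → R) (N : List PZ) :
    ev t X (pN N) ≠ 0 ↔ ∀ l ∈ N, pv t (fun i => X (vs i)) (fun i => X (vz i)) l ≠ 0 := by
  induction N with
  | nil => simp [pN, ev]
  | cons l N ih =>
    have h1 : pN (l :: N) = mulP (pq vz l) (pN N) := rfl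
    rw [h1, CB90.De.ev_mulP, ev_pq, mul_ne_zero_iff, ih, List.forall_mem_cons]

theorem ev_vu (X : ℕ → R) (i : ℕ) (b : PL) :
    ev t X (ren (vu i) b) =
      ev t (Function.update (fun j => X (vs j)) (i + 1) (X (8 * i + 2))) b := by
  rw [CB90.De.ev_ren]
  congr 1
  funext j
  by_cases hj : j = i + 1
  · subst hj
    simp [vu]
  · rw [Function.update_of_ne hj]
    simp [vu, hj, vs]

theorem ev_pB_ne [IsDomain R] (X : ℕ → R) (B : List PL) (N : List PZ) (n : ℕ) :
    ev t X (pB B N n) ≠ 0 ↔
      (∀ l ∈ N, pv t (fun i => X (vs i)) (fun i => X (vz i)) l ≠ 0) ∧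
      ∀ i < n, ev t (Function.update (fun j => X (vs j)) (i + 1) (X (8 * i + 2)))
        (B.getD i []) ≠ 0 := by
  induction n with
  | zero =>
    have h1 : pB B N 0 = pN N := rfl
    rw [h1, ev_pN_ne]
    simp
  | succ n ih =>
    have h1 : pB B N (n + 1) = mulP (pB B N n) (ren (vu n) (B.getD n [])) := rfl
    rw [h1, CB90.De.ev_mulP, ev_vu, mul_ne_zero_iff, ih, and_assoc]
    refine and_congr_right fun _ => ?_
    constructor
    · rintro ⟨h1, h2⟩ i hi
      rcases Nat.lt_succ_iff_lt_or_eq.1 hi with hi | rfl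
      · exact h1 i hi
      · exact h2
    · intro h
      exact ⟨fun i hi => h i (by omega), h n (by omega)⟩

theorem ev_fE {p : ℕ} (hp : 1 ≤ p) (hR : (p : R) = 0) (X : ℕ → R) (j : ℕ) (m : PZ × PL) :
    ev t X (fE p j m) = 0 ↔ pv t (fun i => X (vs i)) (fun i => X (vz i)) m.1 =
      ev t (fun k => X (vy j k)) m.2 := by
  rw [fE, ev_append, ev_neg t hp hR, ev_pq, CB90.De.ev_ren, ← sub_eq_add_neg, sub_eq_zero]

theorem ev_qE {p : ℕ} (hp : 1 ≤ p) (hR : (p : R) = 0) (X : ℕ → R) (j : ℕ) (m : PZ × PZ) :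
    ev t X (qE p j m) = 0 ↔ pv t (fun i => X (vs i)) (fun i => X (vz i)) m.1 =
      pv t (fun i => X (vs i)) (fun k => X (vx j k)) m.2 := by
  rw [qE, ev_append, ev_neg t hp hR, ev_pq, ev_pq, ← sub_eq_add_neg, sub_eq_zero]

theorem ev_cE {p : ℕ} (hp : 1 ≤ p) (hR : (p : R) = 0) (X : ℕ → R) (j : ℕ) (m : PZ × PZ) :
    ev t X (cE p j m) = 0 ↔ X (vc j) * pv t (fun i => X (vs i)) (fun i => X (vz i)) m.1 =
      pv t (fun i => X (vs i)) (fun i => X (vz i)) m.2 := by
  have h1 : ev t X [((0 : ℕ), [vc j])] = X (vc j) := by simp [ev]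
  rw [cE, ev_append, ev_neg t hp hR, CB90.De.ev_mulP, h1, ev_pq, ev_pq, ← sub_eq_add_neg,
    sub_eq_zero]

theorem ev_dE {p : ℕ} (hp : 1 ≤ p) (hR : (p : R) = 0) (X : ℕ → R) (j : ℕ) :
    ev t X (dE p j) = 0 ↔ X (vd j) ^ 2 + X (vd j) = t * X (vc j) ^ 2 := by
  have h1 : ev t X [((0 : ℕ), [vd j, vd j]), ((0 : ℕ), [vd j])] = X (vd j) ^ 2 + X (vd j) := by
    simp [ev]
    ring
  have h2 : ev t X [((1 : ℕ), [vc j, vc j])] = t * X (vc j) ^ 2 := by
    simp [ev]
    ring
  rw [dE, ev_append, ev_neg t hp hR, h1, h2, ← sub_eq_add_neg, sub_eq_zero]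

theorem tr_iff [IsDomain R] {p : ℕ} (hp : 1 ≤ p) (hR : (p : R) = 0) (a : Inp) :
    Sol t (tr p a) ↔ PSol t (DV t) a := by
  obtain ⟨B, E, N, F, Q, V⟩ := a
  have hget : ∀ i b, B[i]? = some b ↔ i < B.length ∧ B.getD i [] = b := by
    intro i b
    rw [List.getD_eq_getElem?_getD]
    constructor
    · intro h
      refine ⟨?_, by rw [h]; rfl⟩
      by_contra hi
      rw [List.getElem?_eq_none (by omega)] at h
      exact absurd h (by simp)
    · rintro ⟨h1, h2⟩
      rw [List.getElem?_eq_getElem h1] at h2 ⊢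
      simpa using h2
  have key : Sol t (tr p (B, E, N, F, Q, V)) ↔ ∃ X : ℕ → R,
      (∀ b ∈ B, ev t (fun i => X (vs i)) b = 0) ∧
      (∀ l ∈ E, pv t (fun i => X (vs i)) (fun i => X (vz i)) l = 0) ∧
      (∀ j < F.length, pv t (fun i => X (vs i)) (fun i => X (vz i)) (F.getD j ([], [])).1 =
        ev t (fun k => X (vy j k)) (F.getD j ([], [])).2) ∧
      (∀ j < Q.length, pv t (fun i => X (vs i)) (fun i => X (vz i)) (Q.getD j ([], [])).1 =
        pv t (fun i => X (vs i)) (fun k => X (vx j k)) (Q.getD j ([], [])).2) ∧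
      (∀ j < V.length, X (vc j) *
        pv t (fun i => X (vs i)) (fun i => X (vz i)) (V.getD j ([], [])).1 =
        pv t (fun i => X (vs i)) (fun i => X (vz i)) (V.getD j ([], [])).2) ∧
      (∀ j < V.length, X (vd j) ^ 2 + X (vd j) = t * X (vc j) ^ 2) ∧
      (∀ l ∈ N, pv t (fun i => X (vs i)) (fun i => X (vz i)) l ≠ 0) ∧
      ∀ i < B.length, ev t (Function.update (fun j => X (vs j)) (i + 1) (X (8 * i + 2)))
        (B.getD i []) ≠ 0 := by
    unfold Sol tr
    simp only [List.forall_mem_append, List.forall_mem_map, mem_idx, ev_pB_ne, ev_fE t hp hR,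
      ev_qE t hp hR, ev_cE t hp hR, ev_dE t hp hR, ev_pq, CB90.De.ev_ren, and_assoc]
  rw [key]
  constructor
  · rintro ⟨X, h1, h2, h3, h4, h5, h6, h7, h8⟩
    refine ⟨fun i => X (vs i), fun i => X (vz i), ?_, h2, h7, ?_, ?_, ?_⟩
    · intro i b hb
      refine ⟨h1 b (List.mem_of_getElem? hb), X (8 * i + 2), ?_⟩
      obtain ⟨h9, h10⟩ := (hget i b).1 hb
      have h11 := h8 i h9
      rw [h10] at h11
      exact h11
    · rw [mem_getD ([], [])]
      exact fun j hj => ⟨_, h3 j hj⟩
    · rw [mem_getD ([], [])]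
      exact fun j hj => ⟨_, h4 j hj⟩
    · rw [mem_getD ([], [])]
      exact fun j hj => ⟨X (vc j), ⟨X (vd j), h6 j hj⟩, h5 j hj⟩
  · rintro ⟨s, z, hb, h2, h7, h3, h4, h5⟩
    rw [mem_getD ([], [])] at h3 h4 h5
    have hu : ∀ i, ∃ u : R, i < B.length →
        ev t (Function.update s (i + 1) u) (B.getD i []) ≠ 0 := by
      intro i
      by_cases hi : i < B.length
      · obtain ⟨u, hu⟩ := (hb i (B.getD i []) ((hget i _).2 ⟨hi, rfl⟩)).2
        exact ⟨u, fun _ => hu⟩
      · exact ⟨0, fun h => absurd h hi⟩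
    have hy : ∀ j, ∃ y : ℕ → R, j < F.length → pv t s z (F.getD j ([], [])).1 =
        ev t y (F.getD j ([], [])).2 := by
      intro j
      by_cases hj : j < F.length
      · obtain ⟨y, hy⟩ := h3 j hj
        exact ⟨y, fun _ => hy⟩
      · exact ⟨fun _ => 0, fun h => absurd h hj⟩
    have hx : ∀ j, ∃ x : ℕ → R, j < Q.length → pv t s z (Q.getD j ([], [])).1 =
        pv t s x (Q.getD j ([], [])).2 := by
      intro j
      by_cases hj : j < Q.length
      · obtain ⟨x, hx⟩ := h4 j hj
        exact ⟨x, fun _ => hx⟩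
      · exact ⟨fun _ => 0, fun h => absurd h hj⟩
    have hc : ∀ j, ∃ c d : R, j < V.length → (c * pv t s z (V.getD j ([], [])).1 =
        pv t s z (V.getD j ([], [])).2 ∧ d ^ 2 + d = t * c ^ 2) := by
      intro j
      by_cases hj : j < V.length
      · obtain ⟨c, ⟨d, hd⟩, hc⟩ := h5 j hj
        exact ⟨c, d, fun _ => ⟨hc, hd⟩⟩
      · exact ⟨0, 0, fun h => absurd h hj⟩
    choose u hu using hu
    choose y hy using hy
    choose x hx using hx
    choose c d hc using hc
    let X : ℕ → R := fun v =>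
      if v % 8 = 0 then s (v / 8) else
      if v % 8 = 1 then z (v / 8) else
      if v % 8 = 2 then u (v / 8) else
      if v % 8 = 3 then y (Nat.unpair (v / 8)).1 (Nat.unpair (v / 8)).2 else
      if v % 8 = 4 then x (Nat.unpair (v / 8)).1 (Nat.unpair (v / 8)).2 else
      if v % 8 = 5 then c (v / 8) else d (v / 8)
    have e0 : (fun i => X (vs i)) = s := by
      funext i
      have a1 : vs i % 8 = 0 := by simp only [vs]; omega
      have a2 : vs i / 8 = i := by simp only [vs]; omega
      simp only [X, a1, a2, if_true]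
    have e1 : (fun i => X (vz i)) = z := by
      funext i
      have a1 : vz i % 8 = 1 := by simp only [vz]; omega
      have a2 : vz i / 8 = i := by simp only [vz]; omega
      simp [X, a1, a2]
    have e2 : ∀ i, X (8 * i + 2) = u i := by
      intro i
      have a1 : (8 * i + 2) % 8 = 2 := by omega
      have a2 : (8 * i + 2) / 8 = i := by omega
      simp [X, a1, a2]
    have e3 : ∀ j, (fun k => X (vy j k)) = y j := by
      intro j
      funext k
      have a1 : vy j k % 8 = 3 := by simp only [vy]; omega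
      have a2 : vy j k / 8 = Nat.pair j k := by simp only [vy]; omega
      simp [X, a1, a2]
    have e4 : ∀ j, (fun k => X (vx j k)) = x j := by
      intro j
      funext k
      have a1 : vx j k % 8 = 4 := by simp only [vx]; omega
      have a2 : vx j k / 8 = Nat.pair j k := by simp only [vx]; omega
      simp [X, a1, a2]
    have e5 : ∀ j, X (vc j) = c j := by
      intro j
      have a1 : vc j % 8 = 5 := by simp only [vc]; omega
      have a2 : vc j / 8 = j := by simp only [vc]; omega
      simp [X, a1, a2]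
    have e6 : ∀ j, X (vd j) = d j := by
      intro j
      have a1 : vd j % 8 = 6 := by simp only [vd]; omega
      have a2 : vd j / 8 = j := by simp only [vd]; omega
      simp [X, a1, a2]
    refine ⟨X, ?_⟩
    simp only [e0, e1, e2, e3, e4, e5, e6]
    refine ⟨?_, h2, hy, hx, fun j hj => (hc j hj).1, fun j hj => (hc j hj).2, h7, hu⟩
    intro b hb'
    obtain ⟨i, hi⟩ := List.getElem?_of_mem hb'
    exact (hb i b hi).1

end sem

section prim

open Primrec

theorem primrec_vs : Primrec vs := Primrec.nat_mul.comp (Primrec.const 8) Primrec.id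

theorem primrec_vz : Primrec vz :=
  Primrec.nat_add.comp (Primrec.nat_mul.comp (Primrec.const 8) Primrec.id) (Primrec.const 1)

theorem primrec_vy : Primrec₂ vy :=
  Primrec.nat_add.comp (Primrec.nat_mul.comp (Primrec.const 8)
    (Primrec₂.natPair.comp Primrec.fst Primrec.snd)) (Primrec.const 3)

theorem primrec_vx : Primrec₂ vx :=
  Primrec.nat_add.comp (Primrec.nat_mul.comp (Primrec.const 8)
    (Primrec₂.natPair.comp Primrec.fst Primrec.snd)) (Primrec.const 4)

theorem primrec_vc : Primrec vc :=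
  Primrec.nat_add.comp (Primrec.nat_mul.comp (Primrec.const 8) Primrec.id) (Primrec.const 5)

theorem primrec_vd : Primrec vd :=
  Primrec.nat_add.comp (Primrec.nat_mul.comp (Primrec.const 8) Primrec.id) (Primrec.const 6)

theorem primrec_vu : Primrec₂ vu := by
  have h1 : PrimrecPred fun x : ℕ × ℕ => x.2 = x.1 + 1 :=
    Primrec.eq.comp Primrec.snd (Primrec.succ.comp Primrec.fst)
  have h2 : Primrec fun x : ℕ × ℕ => 8 * x.1 + 2 :=
    Primrec.nat_add.comp (Primrec.nat_mul.comp (Primrec.const 8) Primrec.fst) (Primrec.const 2)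
  have h3 : Primrec fun x : ℕ × ℕ => 8 * x.2 :=
    Primrec.nat_mul.comp (Primrec.const 8) Primrec.snd
  exact Primrec.ite h1 h2 h3

theorem primrec_mul1 : Primrec₂ mul1 := by
  have h1 : Primrec₂ (fun (x : List ℕ × PL) (m : ℕ × List ℕ) => (m.1, m.2.map vs ++ x.1)) := by
    have hm1 : Primrec (fun y : (List ℕ × PL) × (ℕ × List ℕ) => y.2.1) :=
      Primrec.fst.comp Primrec.snd
    have hm2 : Primrec (fun y : (List ℕ × PL) × (ℕ × List ℕ) => y.2.2) :=
      Primrec.snd.comp Primrec.snd
    have hw : Primrec (fun y : (List ℕ × PL) × (ℕ × List ℕ) => y.1.1) :=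
      Primrec.fst.comp Primrec.fst
    exact Primrec.pair hm1 (Primrec.list_append.comp
      (Primrec.list_map hm2 (primrec_vs.comp Primrec.snd).to₂) hw)
  exact Primrec.list_map (f := fun x : List ℕ × PL => x.2) Primrec.snd h1

theorem primrec_ren {α : Type} [Primcodable α] {w : α → ℕ → ℕ} (hw : Primrec₂ w) :
    Primrec₂ (fun (a : α) (c : PL) => ren (w a) c) := by
  have h1 : Primrec₂ (fun (x : α × PL) (m : ℕ × List ℕ) => (m.1, m.2.map (w x.1))) := by
    have hm1 : Primrec (fun y : (α × PL) × (ℕ × List ℕ) => y.2.1) :=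
      Primrec.fst.comp Primrec.snd
    have hm2 : Primrec (fun y : (α × PL) × (ℕ × List ℕ) => y.2.2) :=
      Primrec.snd.comp Primrec.snd
    have hv : Primrec₂ (fun (y : (α × PL) × (ℕ × List ℕ)) (j : ℕ) => w y.1.1 j) :=
      hw.comp (Primrec.fst.comp (Primrec.fst.comp Primrec.fst)) Primrec.snd
    exact Primrec.pair hm1 (Primrec.list_map hm2 hv)
  exact Primrec.list_map (f := fun x : α × PL => x.2) Primrec.snd h1

theorem primrec_pq {α : Type} [Primcodable α] {w : α → ℕ → ℕ} (hw : Primrec₂ w) :
    Primrec₂ (fun (a : α) (l : PZ) => pq (w a) l) := by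
  have h1 : Primrec₂ (fun (x : α × PZ) (m : PL × List ℕ) => mul1 (m.2.map (w x.1)) m.1) := by
    have hv : Primrec₂ (fun (y : (α × PZ) × (PL × List ℕ)) (i : ℕ) => w y.1.1 i) :=
      hw.comp (Primrec.fst.comp (Primrec.fst.comp Primrec.fst)) Primrec.snd
    have hw : Primrec (fun y : (α × PZ) × (PL × List ℕ) => y.2.2.map (w y.1.1)) :=
      Primrec.list_map (Primrec.snd.comp Primrec.snd) hv
    exact primrec_mul1.comp hw (Primrec.fst.comp Primrec.snd)
  exact Primrec.list_flatMap (f := fun x : α × PZ => x.2) Primrec.snd h1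

theorem primrec_pz : Primrec (pq vz) :=
  (primrec_pq (α := Unit) (w := fun _ => vz) (primrec_vz.comp Primrec.snd)).comp
    (Primrec.const ()) Primrec.id

theorem primrec_neg (p : ℕ) : Primrec (neg p) :=
  Primrec.list_flatMap (f := fun _ : PL => List.range (p - 1)) (Primrec.const _)
    (Primrec.fst : Primrec fun x : PL × ℕ => x.1).to₂

theorem primrec_fE (p : ℕ) : Primrec₂ (fE p) :=
  Primrec.list_append.comp (primrec_pz.comp (Primrec.fst.comp Primrec.snd))
    ((primrec_neg p).comp ((primrec_ren primrec_vy).comp Primrec.fst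
      (Primrec.snd.comp Primrec.snd)))

theorem primrec_qE (p : ℕ) : Primrec₂ (qE p) :=
  Primrec.list_append.comp (primrec_pz.comp (Primrec.fst.comp Primrec.snd))
    ((primrec_neg p).comp ((primrec_pq primrec_vx).comp Primrec.fst
      (Primrec.snd.comp Primrec.snd)))

theorem primrec_cE (p : ℕ) : Primrec₂ (cE p) := by
  have h1 : Primrec fun x : ℕ × (PZ × PZ) => ([(0, [vc x.1])] : PL) :=
    Primrec.list_cons.comp (Primrec.pair (Primrec.const 0)
      (Primrec.list_cons.comp (primrec_vc.comp Primrec.fst) (Primrec.const [])))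
      (Primrec.const [])
  exact Primrec.list_append.comp (CB90.De.primrec_mulP.comp h1
    (primrec_pz.comp (Primrec.fst.comp Primrec.snd)))
    ((primrec_neg p).comp (primrec_pz.comp (Primrec.snd.comp Primrec.snd)))

theorem primrec_dE (p : ℕ) : Primrec (dE p) := by
  have h1 : Primrec fun j : ℕ => ([(0, [vd j, vd j]), (0, [vd j])] : PL) :=
    Primrec.list_cons.comp (Primrec.pair (Primrec.const 0)
      (Primrec.list_cons.comp primrec_vd
        (Primrec.list_cons.comp primrec_vd (Primrec.const []))))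
      (Primrec.list_cons.comp (Primrec.pair (Primrec.const 0)
        (Primrec.list_cons.comp primrec_vd (Primrec.const []))) (Primrec.const []))
  have h2 : Primrec fun j : ℕ => ([(1, [vc j, vc j])] : PL) :=
    Primrec.list_cons.comp (Primrec.pair (Primrec.const 1)
      (Primrec.list_cons.comp primrec_vc
        (Primrec.list_cons.comp primrec_vc (Primrec.const [])))) (Primrec.const [])
  exact Primrec.list_append.comp h1 ((primrec_neg p).comp h2)

theorem primrec_idx {α : Type} [Primcodable α] (d : α) {G : ℕ → α → PL} (hG : Primrec₂ G) :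
    Primrec (idx d G) := by
  have h1 : Primrec₂ fun (L : List α) (j : ℕ) => G j (L.getD j d) :=
    hG.comp Primrec.snd ((Primrec.list_getD d).comp Primrec.fst Primrec.snd)
  exact Primrec.list_map (Primrec.list_range.comp Primrec.list_length) h1

theorem primrec_pN : Primrec pN := by
  have h1 : Primrec₂ fun (_ : List PZ) (y : PZ × PL) => mulP (pq vz y.1) y.2 :=
    CB90.De.primrec_mulP.comp (primrec_pz.comp (Primrec.fst.comp Primrec.snd))
      (Primrec.snd.comp Primrec.snd)
  exact Primrec.list_foldr (f := fun N : List PZ => N) (g := fun _ => ([(0, [])] : PL))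
    Primrec.id (Primrec.const _) h1

theorem primrec_pB : Primrec fun a : Inp => pB a.1 a.2.2.1 a.1.length := by
  have h1 : Primrec₂ (fun (a : Inp) (y : ℕ × PL) =>
      mulP y.2 (ren (vu y.1) (a.1.getD y.1 []))) := by
    have c1 : Primrec (fun z : Inp × (ℕ × PL) => z.2.1) := Primrec.fst.comp Primrec.snd
    have c2 : Primrec (fun z : Inp × (ℕ × PL) => z.2.2) := Primrec.snd.comp Primrec.snd
    have c3 : Primrec (fun z : Inp × (ℕ × PL) => z.1.1) := Primrec.fst.comp Primrec.fst
    exact CB90.De.primrec_mulP.comp c2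
      ((primrec_ren primrec_vu).comp c1 ((Primrec.list_getD ([] : PL)).comp c3 c1))
  exact Primrec.nat_rec' (f := fun a : Inp => a.1.length) (g := fun a => pN a.2.2.1)
    (Primrec.list_length.comp Primrec.fst)
    (primrec_pN.comp (Primrec.fst.comp (Primrec.snd.comp Primrec.snd))) h1

theorem p1 : Primrec fun a : Inp => a.1 := Primrec.fst
theorem p2 : Primrec fun a : Inp => a.2.1 := Primrec.fst.comp Primrec.snd
theorem p3 : Primrec fun a : Inp => a.2.2.1 := Primrec.fst.comp (Primrec.snd.comp Primrec.snd)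
theorem p4 : Primrec fun a : Inp => a.2.2.2.1 :=
  Primrec.fst.comp (Primrec.snd.comp (Primrec.snd.comp Primrec.snd))
theorem p5 : Primrec fun a : Inp => a.2.2.2.2.1 :=
  Primrec.fst.comp (Primrec.snd.comp (Primrec.snd.comp (Primrec.snd.comp Primrec.snd)))
theorem p6 : Primrec fun a : Inp => a.2.2.2.2.2 :=
  Primrec.snd.comp (Primrec.snd.comp (Primrec.snd.comp (Primrec.snd.comp Primrec.snd)))

theorem primrec_tr (p : ℕ) : Primrec (tr p) := by
  have h1 : Primrec fun a : Inp => a.1.map (ren vs) :=
    Primrec.list_map p1 ((primrec_ren (α := Unit) (w := fun _ => vs)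
      (primrec_vs.comp Primrec.snd)).comp (Primrec.const ()) Primrec.snd).to₂
  have h2 : Primrec fun a : Inp => a.2.1.map (pq vz) :=
    Primrec.list_map p2 (primrec_pz.comp Primrec.snd).to₂
  have h3 := (primrec_idx (([], []) : PZ × PL) (primrec_fE p)).comp p4
  have h4 := (primrec_idx (([], []) : PZ × PZ) (primrec_qE p)).comp p5
  have h5 := (primrec_idx (([], []) : PZ × PZ) (primrec_cE p)).comp p6
  have h6 := (primrec_idx (([], []) : PZ × PZ) (G := fun j _ => dE p j)
    ((primrec_dE p).comp Primrec.fst)).comp p6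
  exact Primrec.pair (Primrec.list_append.comp h1 (Primrec.list_append.comp h2
    (Primrec.list_append.comp h3 (Primrec.list_append.comp h4
      (Primrec.list_append.comp h5 h6))))) primrec_pB

theorem primrec_vars : PrimrecRel fun (c : PL) (n : ℕ) => Vars n c := CB90.De.primrec_vars

theorem primrec_deg (d : ℕ) : PrimrecRel fun (f : PZ) (n : ℕ) => Deg n d f := by
  have h1 : PrimrecRel fun (m : PL × List ℕ) (n : ℕ) => Vars n m.1 ∧ m.2.length ≤ d := by
    have e0 : PrimrecPred fun x : (PL × List ℕ) × ℕ => Vars x.2 x.1.1 :=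
      primrec_vars.comp (Primrec.fst.comp Primrec.fst) Primrec.snd
    have e1 : PrimrecPred fun x : (PL × List ℕ) × ℕ => x.1.2.length ≤ d :=
      Primrec.nat_le.comp (Primrec.list_length.comp (Primrec.snd.comp Primrec.fst))
        (Primrec.const d)
    exact e0.and e1
  exact PrimrecRel.forall_mem_list h1

theorem primrec_adm (p : ℕ) [Fact p.Prime] : PrimrecPred (Adm p) := by
  have hn : Primrec fun a : Inp => a.1.length := Primrec.list_length.comp p1
  have c1 : PrimrecPred fun a : Inp =>
      ∀ i ∈ List.range a.1.length, Vars (i + 1) (a.1.getD i []) := by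
    have h6 : PrimrecRel fun (i : ℕ) (B : List PL) => Vars (i + 1) (B.getD i []) := by
      have c1 : Primrec fun x : ℕ × List PL => x.2.getD x.1 [] :=
        (Primrec.list_getD ([] : PL)).comp Primrec.snd Primrec.fst
      exact primrec_vars.comp c1 (Primrec.succ.comp Primrec.fst)
    exact (PrimrecRel.forall_mem_list h6).comp (Primrec.list_range.comp hn) p1
  have c2 : PrimrecPred fun a : Inp => ∀ l ∈ a.2.1, Deg a.1.length 1 l :=
    (PrimrecRel.forall_mem_list (primrec_deg 1)).comp p2 hn
  have c3 : PrimrecPred fun a : Inp => ∀ l ∈ a.2.2.1, Deg a.1.length 1 l :=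
    (PrimrecRel.forall_mem_list (primrec_deg 1)).comp p3 hn
  have c4 : PrimrecPred fun a : Inp =>
      ∀ m ∈ a.2.2.2.1, Deg a.1.length 1 m.1 ∧ Form p m.2 := by
    have h1 : PrimrecRel fun (m : PZ × PL) (n : ℕ) => Deg n 1 m.1 ∧ Form p m.2 := by
      have e0 : PrimrecPred fun x : (PZ × PL) × ℕ => Deg x.2 1 x.1.1 :=
        (primrec_deg 1).comp (Primrec.fst.comp Primrec.fst) Primrec.snd
      have e1 : PrimrecPred fun x : (PZ × PL) × ℕ => Form p x.1.2 :=
        (FB90.De.primrec_form p).comp (Primrec.snd.comp Primrec.fst)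
      exact e0.and e1
    exact (PrimrecRel.forall_mem_list h1).comp p4 hn
  have h2 : ∀ d : ℕ, PrimrecRel fun (m : PZ × PZ) (n : ℕ) => Deg n 1 m.1 ∧ Deg n d m.2 := by
    intro d
    have e0 : PrimrecPred fun x : (PZ × PZ) × ℕ => Deg x.2 1 x.1.1 :=
      (primrec_deg 1).comp (Primrec.fst.comp Primrec.fst) Primrec.snd
    have e1 : PrimrecPred fun x : (PZ × PZ) × ℕ => Deg x.2 d x.1.2 :=
      (primrec_deg d).comp (Primrec.snd.comp Primrec.fst) Primrec.snd
    exact e0.and e1
  have c5 : PrimrecPred fun a : Inp => ∀ m ∈ a.2.2.2.2.1,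
      Deg a.1.length 1 m.1 ∧ Deg a.1.length (if p = 2 then 1 else 2) m.2 :=
    (PrimrecRel.forall_mem_list (h2 _)).comp p5 hn
  have c6 : PrimrecPred fun a : Inp => ∀ m ∈ a.2.2.2.2.2,
      Deg a.1.length 1 m.1 ∧ Deg a.1.length 1 m.2 :=
    (PrimrecRel.forall_mem_list (h2 _)).comp p6 hn
  refine (c1.and (c2.and (c3.and (c4.and (c5.and c6))))).of_eq fun a => ?_
  obtain ⟨B, E, N, F, Q, V⟩ := a
  refine and_congr_left fun _ => ?_
  constructor
  · intro h i b hb
    have hi : i < B.length := by
      by_contra hi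
      rw [List.getElem?_eq_none (by omega)] at hb
      exact absurd hb (by simp)
    have h8 := h i (List.mem_range.2 hi)
    have h9 : B.getD i [] = b := by
      rw [List.getD_eq_getElem?_getD, hb]
      rfl
    rw [← h9]
    exact h8
  · intro h i hi
    have hi' : i < B.length := List.mem_range.1 hi
    refine h i _ ?_
    show B[i]? = some (B.getD i [])
    rw [List.getD_eq_getElem?_getD, List.getElem?_eq_getElem hi']
    rfl

end prim

end De

open De in
/-- DS-5 (Dec.lean): the decision wrapper -/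
theorem decide_psol (p : ℕ) [Fact p.Prime]
    (h : ∀ (M : Type) [Field M] (σ : P1 p →+* M), Mdl p σ → ∀ a : Inp,
      Adm p a → (PSol (σ Polynomial.X) (DV (σ Polynomial.X)) a ↔
        PSol (tauK p Polynomial.X) (DV (tauK p Polynomial.X)) a)) :
    ∃ D : Inp → Bool, Computable D ∧ ∀ a : Inp, Adm p a → (D a = true ↔
      PSol (HahnSeries.single 1 1 : LaurentSeries (ZMod p))
        (fun x y => ∃ c : PowerSeries (ZMod p), (c : LaurentSeries (ZMod p)) * x = y) a) := by
  have hp : 1 ≤ p := (Fact.out : p.Prime).one_lt.le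
  have hR : ∀ (M : Type) [Field M] (σ : P1 p →+* M), (p : M) = 0 := by
    intro M _ σ
    have h1 : ((p : ℕ) : P1 p) = 0 := CharP.cast_eq_zero (P1 p) p
    rw [← map_natCast σ, h1, map_zero]
  obtain ⟨D, hD, hDe⟩ := OP90.De.decide_gen p (tr p) (primrec_tr p) (Adm p)
    (primrec_adm p) (fun M _ σ hM a ha => by
      rw [tr_iff _ hp (hR M σ), tr_iff _ hp (hR _ (tauK p))]
      exact h M σ hM a ha)
  refine ⟨D, hD, fun a ha => ?_⟩
  have ht : tauK p Polynomial.X = (HahnSeries.single 1 1 : LaurentSeries (ZMod p)) := by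
    rw [tauK, RingHom.comp_apply, tau_X]
    exact HahnSeries.ofPowerSeries_X
  have h3 : DV (HahnSeries.single 1 1 : LaurentSeries (ZMod p)) =
      (fun a b : LaurentSeries (ZMod p) => ∃ c : PowerSeries (ZMod p),
        (c : LaurentSeries (ZMod p)) * a = b) := by
    funext a b
    refine propext ⟨?_, ?_⟩
    · rintro ⟨c, hc, hcb⟩
      have hc' : VO (tauK p Polynomial.X) c := by
        rw [ht]
        exact hc
      obtain ⟨r, rfl⟩ := (VO_KK c).1 hc'
      exact ⟨r, hcb⟩
    · rintro ⟨r, hr⟩
      have hc' : VO (tauK p Polynomial.X) (iK p r) := (VO_KK _).2 ⟨r, rfl⟩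
      rw [ht] at hc'
      exact ⟨iK p r, hc', hr⟩
  rw [hDe a ha, tr_iff _ hp (hR (LaurentSeries (ZMod p)) (tauK p)), h3]

end DS90
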