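import Pool.Agent.BF80.Val
import Pool.Agent.OP90.DiagUp
import Pool.Agent.OP90.ConstDiag

/-!
# Linear functionals which preserve power classes and the valuation
-/

set_option maxSynthPendingDepth 10

namespace DS90

open FT80 BF80

/-- the same class modulo `D`-th powers -/
def Sm {M : Type*} [Field M] (D : ℕ) (f g : M) : Prop := ∃ m : M, m ≠ 0 ∧ g = f * m ^ D

section sm

variable {M : Type*} [Field M] {D : ℕ}

theorem Sm.refl (f : M) : Sm D f f := ⟨1, one_ne_zero, by rw [one_pow, mul_one]⟩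

theorem Sm.symm {f g : M} (h : Sm D f g) : Sm D g f := by
  obtain ⟨m, hm, rfl⟩ := h
  refine ⟨m⁻¹, inv_ne_zero hm, ?_⟩
  rw [mul_assoc, ← mul_pow, mul_inv_cancel₀ hm, one_pow, mul_one]

theorem Sm.trans {f g h : M} (h1 : Sm D f g) (h2 : Sm D g h) : Sm D f h := by
  obtain ⟨m, hm, rfl⟩ := h1
  obtain ⟨n, hn, rfl⟩ := h2
  exact ⟨m * n, mul_ne_zero hm hn, by rw [mul_pow, mul_assoc]⟩

theorem Sm.mul {f g : M} (h : Sm D f g) (e : M) : Sm D (e * f) (e * g) := by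
  obtain ⟨m, hm, rfl⟩ := h
  exact ⟨m, hm, by rw [mul_assoc]⟩

theorem Sm.ne {f g : M} (h : Sm D f g) (hf : f ≠ 0) : g ≠ 0 := by
  obtain ⟨m, hm, rfl⟩ := h
  exact mul_ne_zero hf (pow_ne_zero _ hm)

end sm

section val

variable {p : ℕ} [hp : Fact p.Prime] {M : Type} [Field M] {σ : P1 p →+* M}

/-- adding something small -/
theorem sm_add (hM : Mdl p σ) {D : ℕ} (hD : ¬ p ∣ D) {f g : M} (h : hM.fv g < hM.fv f) :
    Sm D f (f + g) := by
  have ht := hM.t_ne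
  have hf : f ≠ 0 := by
    rintro rfl
    rw [map_zero] at h
    exact absurd h (not_lt.2 zero_le)
  have hf0 : (0 : hM.VG) < hM.fv f := zero_lt_iff.2 ((Valuation.ne_zero_iff _).2 hf)
  have h1 : hM.fv (g / f) < 1 := by
    rw [map_div₀]
    exact (div_lt_one₀ hf0).2 h
  have h2 := hM.le_fv_t h1
  have ht0 : (0 : hM.VG) < hM.fv (σ Polynomial.X) := zero_lt_iff.2 ((Valuation.ne_zero_iff _).2 ht)
  have h3 : VO (σ Polynomial.X) (g / f / σ Polynomial.X) := by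
    rw [← hM.fv_le_one, map_div₀]
    exact (div_le_one₀ ht0).2 h2
  obtain ⟨w, hw⟩ := OP90.CD.one_add_pow hM hD h3
  have h4 : (1 + σ Polynomial.X * w) ^ D = (f + g) / f := by
    rw [hw]
    field_simp
  have hfg : f + g ≠ 0 := by
    intro h0
    have h5 : g = -f := by linear_combination h0
    rw [h5, Valuation.map_neg] at h
    exact lt_irrefl _ h
  have hD0 : D ≠ 0 := fun h0 => hD (h0 ▸ dvd_zero p)
  refine ⟨1 + σ Polynomial.X * w, ?_, ?_⟩
  · intro h0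
    rw [h0, zero_pow hD0] at h4
    exact (div_ne_zero hfg hf) h4.symm
  · rw [h4]
    field_simp

theorem fv_add (hM : Mdl p σ) {f g : M} (h : hM.fv g < hM.fv f) : hM.fv (f + g) = hM.fv f :=
  Valuation.map_add_eq_of_lt_left _ h

/-- residues -/
theorem residue (hM : Mdl p σ) {f g : M} (hg : g ≠ 0) (h : hM.fv f = hM.fv g) :
    ∃ c : ℕ, 1 ≤ c ∧ c < p ∧ hM.fv (f - c * g) < hM.fv g := by
  have ht := hM.t_ne
  have hg0 : (0 : hM.VG) < hM.fv g := zero_lt_iff.2 ((Valuation.ne_zero_iff _).2 hg)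
  have h1 : hM.fv (f / g) = 1 := by
    rw [map_div₀, h, div_self hg0.ne']
  obtain ⟨a, ha, h2⟩ := hM.res (f / g) ((hM.fv_le_one _).1 h1.le)
  have h3 : hM.fv (f / g - a) < 1 := by
    have h4 : f / g - a = (f / g - a) / σ Polynomial.X * σ Polynomial.X :=
      (div_mul_cancel₀ _ ht).symm
    rw [h4, map_mul]
    calc hM.fv ((f / g - a) / σ Polynomial.X) * hM.fv (σ Polynomial.X)
        ≤ 1 * hM.fv (σ Polynomial.X) := mul_le_mul_left ((hM.fv_le_one _).2 h2) _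
      _ = hM.fv (σ Polynomial.X) := one_mul _
      _ < 1 := hM.fv_t_lt
  refine ⟨a, ?_, ha, ?_⟩
  · rw [Nat.one_le_iff_ne_zero]
    rintro rfl
    rw [Nat.cast_zero, sub_zero, h1] at h3
    exact lt_irrefl _ h3
  · have h4 : f - a * g = (f / g - a) * g := by
      field_simp
    rw [h4, map_mul]
    calc hM.fv (f / g - a) * hM.fv g < 1 * hM.fv g := mul_lt_mul_of_pos_right h3 hg0
      _ = hM.fv g := one_mul _

/-- elements of `E` of a given class and size -/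
theorem exists_class (hM : Mdl p σ) (E : Subfield M) (htE : σ Polynomial.X ∈ E)
    (hE2 : ∀ (z : M) (n : ℕ), n ≠ 0 → z ^ n ∈ E → z ∈ E) {D : ℕ} (hD : ¬ p ∣ D) {u x : M}
    (hu : u ∈ E) (hu0 : u ≠ 0) (hx : x ≠ 0) :
    ∃ z ∈ E, z ≠ 0 ∧ Sm D x z ∧ hM.fv u < hM.fv z ∧ hM.fv (σ Polynomial.X ^ D * z) ≤ hM.fv u := by
  have ht := hM.t_ne
  have hD0 : D ≠ 0 := fun h0 => hD (h0 ▸ dvd_zero p)
  obtain ⟨γ, hγ, i, hi, y, h1, h2⟩ := hM.pow D hD x hx
  obtain ⟨γ', hγ', i', hi', y', h1', h2'⟩ := hM.pow D hD u hu0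
  have hy : y ≠ 0 := by
    rintro rfl
    rw [zero_pow hD0, mul_zero] at h2
    exact hx h2
  have hy' : y' ≠ 0 := by
    rintro rfl
    rw [zero_pow hD0, mul_zero] at h2'
    exact hu0 h2'
  have hγ0 : hM.fv (γ : M) = 1 := hM.fv_natCast h1 hγ
  have hγ0' : hM.fv (γ' : M) = 1 := hM.fv_natCast h1' hγ'
  have hγne : (γ : M) ≠ 0 := fun h => by
    rw [h, map_zero] at hγ0
    exact zero_ne_one hγ0
  have hγne' : (γ' : M) ≠ 0 := fun h => by
    rw [h, map_zero] at hγ0'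
    exact zero_ne_one hγ0'
  have hyE : y' ^ D ∈ E := by
    have h3 : y' ^ D = (γ' * σ Polynomial.X ^ i')⁻¹ * u := by
      rw [h2', ← mul_assoc, inv_mul_cancel₀ (mul_ne_zero hγne' (pow_ne_zero _ ht)), one_mul]
    rw [h3]
    exact mul_mem (inv_mem (mul_mem (natCast_mem E _) (pow_mem htE _))) hu
  have hy'0 : (0 : hM.VG) < hM.fv y' ^ D := zero_lt_iff.2 (pow_ne_zero _
    ((Valuation.ne_zero_iff _).2 hy'))
  have ht0 : (0 : hM.VG) < hM.fv (σ Polynomial.X) := zero_lt_iff.2 ((Valuation.ne_zero_iff _).2 ht)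
  have ht1 := hM.fv_t_lt
  have hux : hM.fv u = hM.fv (σ Polynomial.X) ^ i' * hM.fv y' ^ D := by
    rw [h2', map_mul, map_mul, map_pow, map_pow, hγ0', one_mul]
  by_cases hii : i < i'
  · refine ⟨γ * σ Polynomial.X ^ i * y' ^ D, mul_mem (mul_mem (natCast_mem E _)
      (pow_mem htE _)) hyE, mul_ne_zero (mul_ne_zero hγne (pow_ne_zero _ ht))
      (pow_ne_zero _ hy'), ⟨y' / y, div_ne_zero hy' hy, ?_⟩, ?_, ?_⟩
    · rw [h2, div_pow]
      field_simp
    · rw [hux, map_mul, map_mul, map_pow, map_pow, hγ0, one_mul]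
      exact mul_lt_mul_of_pos_right (pow_lt_pow_right_of_lt_one₀ ht0 ht1 hii) hy'0
    · rw [hux, map_mul, map_mul, map_mul, map_pow, map_pow, map_pow, hγ0, one_mul, ← mul_assoc,
        ← pow_add]
      exact mul_le_mul_left (pow_le_pow_of_le_one ht0.le ht1.le (by omega)) _
  · have hty : y' / σ Polynomial.X ≠ 0 := div_ne_zero hy' ht
    refine ⟨γ * σ Polynomial.X ^ i * (y' / σ Polynomial.X) ^ D, ?_,
      mul_ne_zero (mul_ne_zero hγne (pow_ne_zero _ ht)) (pow_ne_zero _ hty),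
      ⟨y' / σ Polynomial.X / y, div_ne_zero hty hy, ?_⟩, ?_, ?_⟩
    · rw [div_pow]
      exact mul_mem (mul_mem (natCast_mem E _) (pow_mem htE _)) (div_mem hyE (pow_mem htE _))
    · rw [h2, div_pow _ y]
      field_simp
    · rw [hux, map_mul, map_mul, map_pow, map_pow, hγ0, one_mul, map_div₀, div_pow, mul_div_assoc',
        mul_comm _ (hM.fv y' ^ D), mul_comm _ (hM.fv y' ^ D), mul_div_assoc]
      refine mul_lt_mul_of_pos_left ?_ hy'0
      rw [lt_div_iff₀ (pow_pos ht0 _), ← pow_add]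
      exact pow_lt_pow_right_of_lt_one₀ ht0 ht1 (by omega)
    · rw [hux, map_mul, map_mul, map_mul, map_pow, map_pow, map_pow, hγ0, one_mul, map_div₀,
        div_pow]
      have h5 : hM.fv (σ Polynomial.X) ^ D ≠ 0 := (pow_pos ht0 _).ne'
      have h6 : hM.fv (σ Polynomial.X) ^ D * (hM.fv (σ Polynomial.X) ^ i *
          (hM.fv y' ^ D / hM.fv (σ Polynomial.X) ^ D)) =
          hM.fv (σ Polynomial.X) ^ i * hM.fv y' ^ D := by
        rw [mul_left_comm, mul_div_cancel₀ _ h5]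
      rw [h6]
      exact mul_le_mul_left (pow_le_pow_of_le_one ht0.le ht1.le (by omega)) _

end val

section ext

variable {M : Type} [Field M]

theorem ext_lin (E : Subfield M) (F : Submodule E M) {w : M} (hw : w ∉ F) (φ : M →ₗ[E] E)
    (z : E) : ∃ ψ : M →ₗ[E] E, ψ w = z ∧ ∀ f ∈ F, ψ f = φ f := by
  obtain ⟨l, h1, h2⟩ := Submodule.exists_le_ker_of_notMem hw
  refine ⟨φ + ((z - φ w) / l w) • l, ?_, fun f hf => ?_⟩
  · rw [LinearMap.add_apply, LinearMap.smul_apply, smul_eq_mul, div_mul_cancel₀ _ h1]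
    ring
  · have h3 : l f = 0 := LinearMap.mem_ker.1 (h2 hf)
    rw [LinearMap.add_apply, LinearMap.smul_apply, h3, smul_zero, add_zero]

theorem coe_smul_eq (E : Subfield M) (e : E) (m : M) : e • m = (e : M) * m := rfl

end ext

section step

variable {p : ℕ} [hp : Fact p.Prime] {M : Type} [Field M] {σ : P1 p →+* M}

/-- the conclusion for a finite set -/
def Good (hM : Mdl p σ) (E : Subfield M) (D : ℕ) (S : Finset M) (φ : M →ₗ[E] E) : Prop :=
  (∀ f ∈ S, Sm D f (φ f : M)) ∧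
    ∀ f ∈ S, ∀ g ∈ S, (hM.fv f ≤ hM.fv g ↔ hM.fv (φ f : M) ≤ hM.fv (φ g : M))

theorem Good.lt {hM : Mdl p σ} {E : Subfield M} {D : ℕ} {S : Finset M} {φ : M →ₗ[E] E}
    (h : Good hM E D S φ) {f g : M} (hf : f ∈ S) (hg : g ∈ S) :
    hM.fv f < hM.fv g ↔ hM.fv (φ f : M) < hM.fv (φ g : M) := by
  rw [← not_le, ← not_le, h.2 g hg f hf]

theorem Good.eq {hM : Mdl p σ} {E : Subfield M} {D : ℕ} {S : Finset M} {φ : M →ₗ[E] E}
    (h : Good hM E D S φ) {f g : M} (hf : f ∈ S) (hg : g ∈ S) :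
    hM.fv f = hM.fv g ↔ hM.fv (φ f : M) = hM.fv (φ g : M) := by
  rw [le_antisymm_iff, le_antisymm_iff, h.2 f hf g hg, h.2 g hg f hf]

/-- the choice of the value at `w` -/
def ZOk (hM : Mdl p σ) (E : Subfield M) (D : ℕ) (H0 : Finset M) (w : M) (φ : M →ₗ[E] E)
    (z : E) : Prop :=
  Sm D w (z : M) ∧
    ∀ h ∈ H0, (hM.fv h < hM.fv w ∧ hM.fv (φ h : M) < hM.fv (z : M)) ∨
      (hM.fv h = hM.fv w ∧ hM.fv (φ h : M) = hM.fv (z : M)) ∨
      (hM.fv w < hM.fv h ∧ hM.fv (z : M) < hM.fv (φ h : M))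

theorem sm_smul {D : ℕ} (E : Subfield M) (φ : M →ₗ[E] E) (e : E) {f : M}
    (h : Sm D f (φ f : M)) : Sm D (e • f) (φ (e • f) : M) := by
  rw [map_smul, coe_smul_eq, smul_eq_mul, Subfield.coe_mul]
  exact h.mul e

/-- assembly -/
theorem assemble (hM : Mdl p σ) (E : Subfield M) {D : ℕ} (hD : ¬ p ∣ D)
    (S₀ : Finset M) (A : Finset (E × M)) (w : M) (hw : w ≠ 0) (φ ψ : M →ₗ[E] E)
    (H0 S1 : Finset M)
    (hS₀ : ∀ f ∈ S₀, f ∈ S1 ∧ ψ f = φ f ∧ ∀ x ∈ A, x.1⁻¹ • f ∈ H0)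
    (hA : ∀ x ∈ A, x.1 ≠ 0 ∧ hM.fv w ≤ hM.fv (w + x.2) ∧ ψ x.2 = φ x.2 ∧
      (x.2 = 0 ∨ (x.2 ∈ H0 ∧ x.1 • x.2 ∈ S1 ∧ ∀ y ∈ A, y.1⁻¹ • x.1 • x.2 ∈ H0)))
    (hg : Good hM E D S1 φ) (hz : ZOk hM E D H0 w φ (ψ w))
    (h3 : ∀ x ∈ A, hM.fv x.2 = hM.fv w → Sm D (w + x.2) (ψ (w + x.2) : M) ∧
      hM.fv (ψ (w + x.2) : M) = hM.fv (ψ w : M)) (U : Finset M)
    (hU : ∀ f ∈ U, f ∈ S₀ ∨ ∃ x ∈ A, f = x.1 • (w + x.2)) : Good hM E D U ψ := by
  have hzw : (ψ w : M) ≠ 0 := hz.1.ne hw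
  have hwv : hM.fv w ≠ 0 := (Valuation.ne_zero_iff _).2 hw
  have hzv : hM.fv (ψ w : M) ≠ 0 := (Valuation.ne_zero_iff _).2 hzw
  -- classification
  have cls : ∀ f ∈ U, Sm D f (ψ f : M) ∧
      ((∃ ρ ∈ S1, (∀ y ∈ A, y.1⁻¹ • ρ ∈ H0) ∧ hM.fv f = hM.fv ρ ∧
          hM.fv (ψ f : M) = hM.fv (φ ρ : M)) ∨
        ∃ x ∈ A, hM.fv f = hM.fv (x.1 • w) ∧ hM.fv (ψ f : M) = hM.fv ((x.1 : M) * ψ w)) := by
    intro f hf
    rcases hU f hf with hf0 | ⟨x, hx, rfl⟩
    · obtain ⟨h4, h5, h6⟩ := hS₀ f hf0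
      refine ⟨by rw [h5]; exact hg.1 f h4, Or.inl ⟨f, h4, h6, rfl, by rw [h5]⟩⟩
    · obtain ⟨hx1, hx2, hx3, hx4⟩ := hA x hx
      have hψ : (ψ (w + x.2) : M) = ψ w + φ x.2 := by
        rw [map_add, hx3]
        rfl
      have hsm : (ψ (x.1 • (w + x.2)) : M) = x.1 * ψ (w + x.2) := by
        rw [map_smul, smul_eq_mul, Subfield.coe_mul]
      -- three cases
      have key : (Sm D (w + x.2) (ψ (w + x.2) : M) ∧ hM.fv (w + x.2) = hM.fv w ∧
          hM.fv (ψ (w + x.2) : M) = hM.fv (ψ w : M)) ∨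
          (x.2 ∈ H0 ∧ x.1 • x.2 ∈ S1 ∧ (∀ y ∈ A, y.1⁻¹ • x.1 • x.2 ∈ H0) ∧
            hM.fv (w + x.2) = hM.fv x.2 ∧ hM.fv (ψ (w + x.2) : M) = hM.fv (φ x.2 : M) ∧
            Sm D (w + x.2) x.2 ∧ Sm D (φ x.2 : M) (ψ (w + x.2) : M)) := by
        rcases hx4 with h0 | ⟨hH, hS1, hy⟩
        · left
          rw [h0, add_zero]
          exact ⟨hz.1, rfl, rfl⟩
        · rcases hz.2 x.2 hH with ⟨h4, h5⟩ | ⟨h4, h5⟩ | ⟨h4, h5⟩
          · left
            refine ⟨?_, fv_add hM h4, ?_⟩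
            · rw [hψ]
              exact ((sm_add hM hD h4).symm.trans hz.1).trans (sm_add hM hD h5)
            · rw [hψ]
              exact fv_add hM h5
          · left
            obtain ⟨h6, h7⟩ := h3 x hx h4
            refine ⟨h6, le_antisymm ?_ hx2, h7⟩
            refine (Valuation.map_add _ _ _).trans ?_
            rw [h4, max_self]
          · right
            refine ⟨hH, hS1, hy, ?_, ?_, ?_, ?_⟩
            · rw [add_comm]
              exact fv_add hM h4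
            · rw [hψ, add_comm]
              exact fv_add hM h5
            · rw [add_comm]
              exact (sm_add hM hD h4).symm
            · rw [hψ, add_comm]
              exact sm_add hM hD h5
      rcases key with ⟨h4, h5, h6⟩ | ⟨h4, h5, h6, h7, h8, h9, h10⟩
      · refine ⟨sm_smul E ψ x.1 h4, Or.inr ⟨x, hx, ?_, ?_⟩⟩
        · rw [coe_smul_eq, coe_smul_eq, map_mul, map_mul, h5]
        · rw [hsm, map_mul, map_mul, h6]
      · have h11 : Sm D (x.1 • x.2) (φ (x.1 • x.2) : M) := hg.1 _ h5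
        have h12 : (φ (x.1 • x.2) : M) = x.1 * φ x.2 := by
          rw [map_smul, smul_eq_mul, Subfield.coe_mul]
        refine ⟨?_, Or.inl ⟨x.1 • x.2, h5, h6, ?_, ?_⟩⟩
        · rw [hsm]
          refine (Sm.trans ?_ (h10.mul _))
          rw [← h12]
          exact (h9.mul (x.1 : M)).trans h11
        · rw [coe_smul_eq, coe_smul_eq, map_mul, map_mul, h7]
        · rw [hsm, h12, map_mul, map_mul, h8]
  -- comparison with multiples of `w`
  have cmp : ∀ x ∈ A, ∀ ρ : M, x.1⁻¹ • ρ ∈ H0 →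
      (hM.fv ρ ≤ hM.fv (x.1 • w) ↔ hM.fv (φ ρ : M) ≤ hM.fv ((x.1 : M) * ψ w)) ∧
      (hM.fv (x.1 • w) ≤ hM.fv ρ ↔ hM.fv ((x.1 : M) * ψ w) ≤ hM.fv (φ ρ : M)) := by
    intro x hx ρ hρ
    have hx1 : (x.1 : M) ≠ 0 := fun h => (hA x hx).1 (Subtype.ext h)
    have hxv : (0 : hM.VG) < hM.fv (x.1 : M) := zero_lt_iff.2 ((Valuation.ne_zero_iff _).2 hx1)
    have e1 : hM.fv ρ = hM.fv (x.1 : M) * hM.fv (x.1⁻¹ • ρ) := by
      rw [← map_mul, coe_smul_eq, Subfield.coe_inv, mul_inv_cancel_left₀ hx1]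
    have e2 : hM.fv (φ ρ : M) = hM.fv (x.1 : M) * hM.fv (φ (x.1⁻¹ • ρ) : M) := by
      rw [← map_mul, map_smul, smul_eq_mul, Subfield.coe_mul, Subfield.coe_inv,
        mul_inv_cancel_left₀ hx1]
    have e3 : hM.fv (x.1 • w) = hM.fv (x.1 : M) * hM.fv w := by
      rw [coe_smul_eq, map_mul]
    rw [e1, e2, e3, map_mul, mul_le_mul_iff_right₀ hxv, mul_le_mul_iff_right₀ hxv,
      mul_le_mul_iff_right₀ hxv, mul_le_mul_iff_right₀ hxv]
    rcases hz.2 _ hρ with ⟨h4, h5⟩ | ⟨h4, h5⟩ | ⟨h4, h5⟩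
    · exact ⟨⟨fun _ => h5.le, fun _ => h4.le⟩,
        ⟨fun h => absurd h (not_le.2 h4), fun h => absurd h (not_le.2 h5)⟩⟩
    · exact ⟨⟨fun _ => h5.le, fun _ => h4.le⟩, ⟨fun _ => h5.ge, fun _ => h4.ge⟩⟩
    · exact ⟨⟨fun h => absurd h (not_le.2 h4), fun h => absurd h (not_le.2 h5)⟩,
        ⟨fun _ => h5.le, fun _ => h4.le⟩⟩
  refine ⟨fun f hf => (cls f hf).1, fun f hf g hg' => ?_⟩
  rcases (cls f hf).2 with ⟨ρ, h4, h5, h6, h7⟩ | ⟨x, hx, h6, h7⟩ <;>
    rcases (cls g hg').2 with ⟨ρ', h4', h5', h6', h7'⟩ | ⟨x', hx', h6', h7'⟩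
  · rw [h6, h7, h6', h7']
    exact hg.2 ρ h4 ρ' h4'
  · rw [h6, h7, h6', h7']
    exact (cmp x' hx' ρ (h5 x' hx')).1
  · rw [h6, h7, h6', h7']
    exact (cmp x hx ρ' (h5' x hx)).2
  · rw [h6, h7, h6', h7', coe_smul_eq, coe_smul_eq, map_mul, map_mul, map_mul, map_mul,
      mul_le_mul_iff_left₀ (zero_lt_iff.2 hwv), mul_le_mul_iff_left₀ (zero_lt_iff.2 hzv)]

end step

section step1

variable {p : ℕ} [hp : Fact p.Prime] {M : Type} [Field M] {σ : P1 p →+* M}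

theorem fv_natCast_mul (hM : Mdl p σ) {c : ℕ} (h1 : 1 ≤ c) (h2 : c < p) (x : M) :
    hM.fv ((c : M) * x) = hM.fv x := by
  rw [map_mul, hM.fv_natCast h1 h2, one_mul]

/-- discreteness -/
theorem gap (hM : Mdl p σ) {h w : M} (hh : h ≠ 0) (D : ℕ)
    (hne : ∀ k ≤ D, hM.fv ((σ Polynomial.X ^ k)⁻¹ * h) ≠ hM.fv w) (hlt : hM.fv h < hM.fv w) :
    ∀ k ≤ D, hM.fv ((σ Polynomial.X ^ k)⁻¹ * h) < hM.fv w := by
  have ht := hM.t_ne
  have ht0 : (0 : hM.VG) < hM.fv (σ Polynomial.X) := zero_lt_iff.2 ((Valuation.ne_zero_iff _).2 ht)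
  have hw : w ≠ 0 := by
    rintro rfl
    rw [map_zero] at hlt
    exact absurd hlt (not_lt.2 zero_le)
  have hw0 : (0 : hM.VG) < hM.fv w := zero_lt_iff.2 ((Valuation.ne_zero_iff _).2 hw)
  intro k
  induction k with
  | zero =>
    intro _
    rw [pow_zero, inv_one, one_mul]
    exact hlt
  | succ k ih =>
    intro hk
    refine lt_of_le_of_ne ?_ (hne (k + 1) hk)
    have h1 := ih (by omega)
    have h2 : hM.fv ((σ Polynomial.X ^ k)⁻¹ * h / w) < 1 := by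
      rw [map_div₀]
      exact (div_lt_one₀ hw0).2 h1
    have h3 := hM.le_fv_t h2
    have h4 : (σ Polynomial.X ^ (k + 1))⁻¹ * h =
        ((σ Polynomial.X ^ k)⁻¹ * h / w) * w / σ Polynomial.X := by
      rw [pow_succ]
      field_simp
    rw [h4, map_div₀, map_mul, div_le_iff₀ ht0, mul_comm (hM.fv w)]
    exact mul_le_mul_left h3 _

theorem step1 (hM : Mdl p σ) (E : Subfield M) (htE : σ Polynomial.X ∈ E)
    (hE2 : ∀ (z : M) (n : ℕ), n ≠ 0 → z ^ n ∈ E → z ∈ E) {D : ℕ} (hD : ¬ p ∣ D)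
    (F : Submodule E M)
    (IH : ∀ S : Finset M, (0 : M) ∉ S → (∀ f ∈ S, f ∈ F) → ∃ φ, Good hM E D S φ)
    (w : M) (hw : w ∉ F) (S₀ : Finset M) (h0 : (0 : M) ∉ S₀) (hS₀ : ∀ f ∈ S₀, f ∈ F)
    (A : Finset (E × M))
    (hA : ∀ x ∈ A, x.1 ≠ 0 ∧ x.2 ∈ F ∧ hM.fv w ≤ hM.fv (w + x.2)) (U : Finset M)
    (hU : ∀ f ∈ U, f ∈ S₀ ∨ ∃ x ∈ A, f = x.1 • (w + x.2)) :
    ∃ ψ, Good hM E D U ψ := by
  classical
  have ht := hM.t_ne
  have hw0 : w ≠ 0 := fun h => hw (h ▸ F.zero_mem)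
  have ht0 : (0 : hM.VG) < hM.fv (σ Polynomial.X) := zero_lt_iff.2 ((Valuation.ne_zero_iff _).2 ht)
  set H0 : Finset M := ((A ×ˢ A).image (fun x => x.1.1⁻¹ • x.2.1 • x.2.2) ∪
    (A ×ˢ S₀).image (fun x => x.1.1⁻¹ • x.2)).erase 0 with hH0
  set H : Finset M := (H0 ×ˢ Finset.range (D + 1)).image
    (fun x => (σ Polynomial.X ^ x.2)⁻¹ * x.1) with hH
  set P5 : Finset M := ((A ×ˢ H) ×ˢ Finset.range p).image
    (fun x => x.1.1.2 - (x.2 : M) * x.1.2) with hP5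
  set S1 : Finset M := (S₀ ∪ A.image (fun x => x.1 • x.2) ∪ H ∪ P5).erase 0 with hS1
  -- membership
  have m1 : ∀ x ∈ A, ∀ y ∈ A, y.2 ≠ 0 → x.1⁻¹ • y.1 • y.2 ∈ H0 := by
    intro x hx y hy h
    rw [hH0, Finset.mem_erase]
    refine ⟨smul_ne_zero (inv_ne_zero (hA x hx).1) (smul_ne_zero (hA y hy).1 h), ?_⟩
    exact Finset.mem_union_left _ (Finset.mem_image.2 ⟨(x, y), Finset.mk_mem_product hx hy, rfl⟩)
  have m2 : ∀ x ∈ A, ∀ f ∈ S₀, x.1⁻¹ • f ∈ H0 := by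
    intro x hx f hf
    rw [hH0, Finset.mem_erase]
    refine ⟨smul_ne_zero (inv_ne_zero (hA x hx).1) (fun h => h0 (h ▸ hf)), ?_⟩
    exact Finset.mem_union_right _ (Finset.mem_image.2 ⟨(x, f), Finset.mk_mem_product hx hf, rfl⟩)
  have m3 : ∀ h ∈ H0, h ≠ 0 ∧ h ∈ F := by
    intro h hh
    rw [hH0, Finset.mem_erase, Finset.mem_union, Finset.mem_image, Finset.mem_image] at hh
    refine ⟨hh.1, ?_⟩
    rcases hh.2 with ⟨x, hx, rfl⟩ | ⟨x, hx, rfl⟩
    · rw [Finset.mem_product] at hx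
      exact F.smul_mem _ (F.smul_mem _ (hA _ hx.2).2.1)
    · rw [Finset.mem_product] at hx
      exact F.smul_mem _ (hS₀ _ hx.2)
  have m4 : ∀ h ∈ H0, ∀ k ≤ D, (σ Polynomial.X ^ k)⁻¹ * h ∈ H := by
    intro h hh k hk
    rw [hH, Finset.mem_image]
    exact ⟨(h, k), Finset.mk_mem_product hh (Finset.mem_range.2 (by omega)), rfl⟩
  have m5 : ∀ h ∈ H0, h ∈ H := by
    intro h hh
    have := m4 h hh 0 (Nat.zero_le _)
    rwa [pow_zero, inv_one, one_mul] at this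
  have m6 : ∀ h ∈ H, h ≠ 0 ∧ h ∈ F := by
    intro h hh
    rw [hH, Finset.mem_image] at hh
    obtain ⟨x, hx, rfl⟩ := hh
    rw [Finset.mem_product] at hx
    obtain ⟨h1, h2⟩ := m3 _ hx.1
    refine ⟨mul_ne_zero (inv_ne_zero (pow_ne_zero _ ht)) h1, ?_⟩
    have h3 := F.smul_mem (⟨σ Polynomial.X, htE⟩ ^ x.2 : E)⁻¹ h2
    exact h3
  have m7 : ∀ h ∈ H, h ∈ S1 := by
    intro h hh
    rw [hS1, Finset.mem_erase]
    exact ⟨(m6 h hh).1, Finset.mem_union_left _ (Finset.mem_union_right _ hh)⟩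
  have m8 : ∀ f ∈ S₀, f ∈ S1 := by
    intro f hf
    rw [hS1, Finset.mem_erase]
    exact ⟨fun h => h0 (h ▸ hf), Finset.mem_union_left _ (Finset.mem_union_left _
      (Finset.mem_union_left _ hf))⟩
  have m9 : ∀ x ∈ A, x.2 ≠ 0 → x.1 • x.2 ∈ S1 := by
    intro x hx h
    rw [hS1, Finset.mem_erase]
    exact ⟨smul_ne_zero (hA x hx).1 h, Finset.mem_union_left _ (Finset.mem_union_left _
      (Finset.mem_union_right _ (Finset.mem_image.2 ⟨x, hx, rfl⟩)))⟩
  have m10 : ∀ x ∈ A, ∀ h ∈ H, ∀ c < p, x.2 - (c : M) * h ≠ 0 → x.2 - (c : M) * h ∈ S1 := by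
    intro x hx h hh c hc hne
    rw [hS1, Finset.mem_erase]
    exact ⟨hne, Finset.mem_union_right _ (Finset.mem_image.2 ⟨((x, h), c),
      Finset.mk_mem_product (Finset.mk_mem_product hx hh) (Finset.mem_range.2 hc), rfl⟩)⟩
  have m11 : ∀ f ∈ S1, f ∈ F := by
    intro f hf
    rw [hS1, Finset.mem_erase, Finset.mem_union, Finset.mem_union, Finset.mem_union] at hf
    rcases hf.2 with ((h | h) | h) | h
    · exact hS₀ f h
    · obtain ⟨x, hx, rfl⟩ := Finset.mem_image.1 h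
      exact F.smul_mem _ (hA x hx).2.1
    · exact (m6 f h).2
    · obtain ⟨x, hx, rfl⟩ := Finset.mem_image.1 h
      rw [Finset.mem_product, Finset.mem_product] at hx
      refine F.sub_mem (hA _ hx.1.1).2.1 ?_
      have h3 := F.smul_mem (x.2 : E) (m6 _ hx.1.2).2
      exact h3
  have m12 : (0 : M) ∉ S1 := by
    rw [hS1]
    exact Finset.notMem_erase _ _
  obtain ⟨φ, hg⟩ := IH S1 m12 m11
  -- reduction to the choice of `z`
  suffices hz : ∃ z : E, ZOk hM E D H0 w φ z ∧ ∀ x ∈ A, hM.fv x.2 = hM.fv w →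
      Sm D (w + x.2) ((z + φ x.2 : E) : M) ∧ hM.fv ((z + φ x.2 : E) : M) = hM.fv (z : M) by
    obtain ⟨z, hz1, hz2⟩ := hz
    obtain ⟨ψ, hψ1, hψ2⟩ := ext_lin E F hw φ z
    refine ⟨ψ, assemble hM E hD S₀ A w hw0 φ ψ H0 S1 (fun f hf => ⟨m8 f hf, hψ2 f (hS₀ f hf),
      fun x hx => m2 x hx f hf⟩) (fun x hx => ?_) hg (by rw [hψ1]; exact hz1) ?_ U hU⟩
    · obtain ⟨a1, a2, a3⟩ := hA x hx
      refine ⟨a1, a3, hψ2 _ a2, ?_⟩
      by_cases hx2 : x.2 = 0
      · exact Or.inl hx2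
      · refine Or.inr ⟨?_, m9 x hx hx2, fun y hy => m1 y hy x hx hx2⟩
        have := m1 x hx x hx hx2
        rwa [inv_smul_smul₀ a1] at this
    · intro x hx hv
      obtain ⟨b1, b2⟩ := hz2 x hx hv
      have h5 : ψ (w + x.2) = z + φ x.2 := by
        rw [map_add, hψ1, hψ2 _ (hA x hx).2.1]
      rw [h5, hψ1]
      exact ⟨b1, b2⟩
  by_cases hcase : ∃ h ∈ H, hM.fv h = hM.fv w
  · -- case 1
    obtain ⟨h, hh, hv⟩ := hcase
    obtain ⟨hne, -⟩ := m6 h hh
    have hhS := m7 h hh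
    obtain ⟨c, hc1, hc2, hc3⟩ := residue hM hne hv.symm
    have hφh : (φ h : M) ≠ 0 := (hg.1 h hhS).ne hne
    have hcE : ((c : E) : M) = (c : M) := map_natCast E.subtype c
    have hzv : hM.fv (((c : E) * φ h : E) : M) = hM.fv (φ h : M) := by
      rw [Subfield.coe_mul, hcE, fv_natCast_mul hM hc1 hc2]
    refine ⟨(c : E) * φ h, ⟨?_, fun h' hh' => ?_⟩, fun x hx hxv => ?_⟩
    · -- class of `w`
      have h1 : Sm D ((c : M) * h) w := by
        have := sm_add hM hD (f := (c : M) * h) (g := w - c * h) (by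
          rw [fv_natCast_mul hM hc1 hc2]
          exact hc3)
        rwa [add_sub_cancel] at this
      have h2 : Sm D ((c : M) * h) ((c : M) * φ h) := (hg.1 h hhS).mul _
      rw [Subfield.coe_mul, hcE]
      exact h1.symm.trans h2
    · have hh'S := m7 h' (m5 h' hh')
      rw [hzv, ← hv]
      rcases lt_trichotomy (hM.fv h') (hM.fv h) with h1 | h1 | h1
      · exact Or.inl ⟨h1, (hg.lt hh'S hhS).1 h1⟩
      · exact Or.inr (Or.inl ⟨h1, (hg.eq hh'S hhS).1 h1⟩)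
      · exact Or.inr (Or.inr ⟨h1, (hg.lt hhS hh'S).1 h1⟩)
    · obtain ⟨c', hc1', hc2', hc3'⟩ := residue hM hne (hxv.trans hv.symm)
      have hmin := (hA x hx).2.2
      -- the sum of the residues is not zero
      have hcc : ((c + c' : ℕ) : ZMod p) ≠ 0 := by
        intro hcc
        have h1 : ((c + c' : ℕ) : M) = 0 := by
          have h2 : σ (Polynomial.C ((c + c' : ℕ) : ZMod p)) = 0 := by
            rw [hcc, Polynomial.C_0, map_zero]
          rwa [Polynomial.C_eq_natCast, map_natCast] at h2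
        have h2 : w + x.2 = (w - c * h) + (x.2 - c' * h) := by
          push_cast at h1
          linear_combination h * h1
        have h3 : hM.fv (w + x.2) < hM.fv h := by
          rw [h2]
          exact Valuation.map_add_lt _ hc3 hc3'
        rw [hv] at h3
        exact absurd hmin (not_le.2 h3)
      have hcv : ∀ y : M, hM.fv (((c + c' : ℕ) : M) * y) = hM.fv y := by
        intro y
        have h3 : ((c + c' : ℕ) : M) = σ (Polynomial.C ((c + c' : ℕ) : ZMod p)) := by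
          rw [Polynomial.C_eq_natCast, map_natCast]
        have h5 := hM.unit_σ (f := Polynomial.C ((c + c' : ℕ) : ZMod p))
          (by rwa [Polynomial.coeff_C_zero])
        rw [map_mul, h3, hM.fv_eq_one h5.1 (hM.VO_σ _) h5.2, one_mul]
      have h1 : Sm D (((c + c' : ℕ) : M) * h) (w + x.2) := by
        have := sm_add hM hD (f := ((c + c' : ℕ) : M) * h)
          (g := (w - c * h) + (x.2 - c' * h)) (by
            rw [hcv]
            exact Valuation.map_add_lt _ hc3 hc3')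
        have h2 : ((c + c' : ℕ) : M) * h + ((w - c * h) + (x.2 - c' * h)) = w + x.2 := by
          push_cast
          ring
        rwa [h2] at this
      have h2 : Sm D (((c + c' : ℕ) : M) * h) (((c + c' : ℕ) : M) * φ h) := (hg.1 h hhS).mul _
      have hd : hM.fv (φ (x.2 - c' * h) : M) < hM.fv (φ h : M) := by
        by_cases hd0 : x.2 - c' * h = 0
        · rw [hd0, map_zero, Subfield.coe_zero, map_zero]
          exact zero_lt_iff.2 ((Valuation.ne_zero_iff _).2 hφh)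
        · exact (hg.lt (m10 x hx h hh c' hc2' hd0) hhS).1 hc3'
      have h3 : (((c : E) * φ h + φ x.2 : E) : M) =
          ((c + c' : ℕ) : M) * φ h + φ (x.2 - c' * h) := by
        have h4 : φ (x.2 - (c' : M) * h) = φ x.2 - (c' : E) * φ h := by
          have h5 : (c' : M) * h = (c' : E) • h := rfl
          rw [map_sub, h5, map_smul, smul_eq_mul]
        rw [h4]
        push_cast
        ring
      rw [h3, hzv]
      refine ⟨(h1.symm.trans h2).trans (sm_add hM hD (by rw [hcv]; exact hd)), ?_⟩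
      rw [fv_add hM (by rw [hcv]; exact hd), hcv]
  · -- case 2
    push Not at hcase
    have hnot : ∀ x ∈ A, hM.fv x.2 ≠ hM.fv w := by
      intro x hx hxv
      by_cases hx2 : x.2 = 0
      · rw [hx2, map_zero] at hxv
        exact (Valuation.ne_zero_iff _).2 hw0 hxv.symm
      · have h1 := m1 x hx x hx hx2
        rw [inv_smul_smul₀ (hA x hx).1] at h1
        exact hcase _ (m5 _ h1) hxv
    suffices hz : ∃ z : E, ZOk hM E D H0 w φ z by
      obtain ⟨z, hz⟩ := hz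
      exact ⟨z, hz, fun x hx hxv => absurd hxv (hnot x hx)⟩
    by_cases hlow : ∃ h ∈ H0, hM.fv h < hM.fv w
    · obtain ⟨h1, hh1, hlt1⟩ := hlow
      obtain ⟨h, hh, hmax⟩ := Finset.exists_max_image (H0.filter fun h => hM.fv h < hM.fv w)
        (fun h => hM.fv h) ⟨h1, Finset.mem_filter.2 ⟨hh1, hlt1⟩⟩
      rw [Finset.mem_filter] at hh
      obtain ⟨hh, hlt⟩ := hh
      have hhS := m7 h (m5 h hh)
      have hne := (m3 h hh).1
      have hφh : (φ h : M) ≠ 0 := (hg.1 h hhS).ne hne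
      obtain ⟨z, hzE, hz0, hz1, hz2, hz3⟩ := exists_class hM E htE hE2 hD (φ h).2 hφh hw0
      refine ⟨⟨z, hzE⟩, hz1, fun h' hh' => ?_⟩
      have hh'S := m7 h' (m5 h' hh')
      rcases lt_trichotomy (hM.fv h') (hM.fv w) with h2 | h2 | h2
      · left
        refine ⟨h2, lt_of_le_of_lt ?_ hz2⟩
        exact (hg.2 h' hh'S h hhS).1 (hmax h' (Finset.mem_filter.2 ⟨hh', h2⟩))
      · exact absurd h2 (hcase h' (m5 h' hh'))
      · right
        right
        refine ⟨h2, ?_⟩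
        have h3 := gap hM hne D (fun k hk => hcase _ (m4 h hh k hk)) hlt D le_rfl
        have h4 := (hg.lt (m7 _ (m4 h hh D le_rfl)) hh'S).1 (h3.trans h2)
        refine lt_of_le_of_lt ?_ h4
        have h5 : φ ((σ Polynomial.X ^ D)⁻¹ * h) = (⟨σ Polynomial.X, htE⟩ ^ D : E)⁻¹ * φ h := by
          have h6 : (σ Polynomial.X ^ D)⁻¹ * h = ((⟨σ Polynomial.X, htE⟩ ^ D : E)⁻¹) • h := rfl
          rw [h6, map_smul, smul_eq_mul]
        rw [h5, Subfield.coe_mul, Subfield.coe_inv, SubmonoidClass.coe_pow]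
        rw [map_mul, map_inv₀, map_pow, le_inv_mul_iff₀ (pow_pos ht0 _), ← map_pow, ← map_mul]
        exact hz3
    · push Not at hlow
      have hup : ∀ h ∈ H0, hM.fv w < hM.fv h := fun h hh =>
        lt_of_le_of_ne (hlow h hh) (fun h' => hcase h (m5 h hh) h'.symm)
      rcases H0.eq_empty_or_nonempty with he | hne
      · obtain ⟨z, hzE, hz0, hz1, -, -⟩ := exists_class hM E htE hE2 hD E.one_mem one_ne_zero hw0
        refine ⟨⟨z, hzE⟩, hz1, fun h hh => ?_⟩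
        rw [he] at hh
        exact absurd hh (Finset.notMem_empty _)
      · obtain ⟨h, hh, hmin⟩ := Finset.exists_min_image H0 (fun h => hM.fv h) hne
        have hhS := m7 h (m5 h hh)
        have hφh : (φ h : M) ≠ 0 := (hg.1 h hhS).ne (m3 h hh).1
        obtain ⟨z, hzE, hz0, hz1, -, hz3⟩ := exists_class hM E htE hE2 hD
          (u := σ Polynomial.X ^ (D + 1) * φ h) (mul_mem (pow_mem htE _) (φ h).2)
          (mul_ne_zero (pow_ne_zero _ ht) hφh) hw0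
        refine ⟨⟨z, hzE⟩, hz1, fun h' hh' => Or.inr (Or.inr ⟨hup h' hh', ?_⟩)⟩
        have hh'S := m7 h' (m5 h' hh')
        refine lt_of_lt_of_le ?_ ((hg.2 h hhS h' hh'S).1 (hmin h' hh'))
        have h5 : hM.fv z ≤ hM.fv (σ Polynomial.X * φ h) := by
          rw [pow_succ, mul_assoc, map_mul, map_mul (hM.fv) (σ Polynomial.X ^ D)] at hz3
          exact (mul_le_mul_iff_right₀ (by rw [map_pow]; exact pow_pos ht0 _)).1 hz3
        refine lt_of_le_of_lt h5 ?_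
        rw [map_mul]
        calc hM.fv (σ Polynomial.X) * hM.fv (φ h : M) < 1 * hM.fv (φ h : M) :=
              mul_lt_mul_of_pos_right hM.fv_t_lt (zero_lt_iff.2 ((Valuation.ne_zero_iff _).2 hφh))
          _ = hM.fv (φ h : M) := one_mul _

end step1

section final

variable {p : ℕ} [hp : Fact p.Prime] {M : Type} [Field M] {σ : P1 p →+* M}

theorem step2 (hM : Mdl p σ) (E : Subfield M) (htE : σ Polynomial.X ∈ E)
    (hE2 : ∀ (z : M) (n : ℕ), n ≠ 0 → z ^ n ∈ E → z ∈ E) {D : ℕ} (hD : ¬ p ∣ D)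
    (F : Submodule E M)
    (IH : ∀ S : Finset M, (0 : M) ∉ S → (∀ f ∈ S, f ∈ F) → ∃ φ, Good hM E D S φ)
    (w : M) (hw : w ∉ F) (S : Finset M) (h0 : (0 : M) ∉ S)
    (hS : ∀ f ∈ S, ∃ e : E, ∃ r ∈ F, f = e • w + r) : ∃ ψ, Good hM E D S ψ := by
  classical
  choose! e r hr using hS
  rcases (S.filter fun f => e f ≠ 0).eq_empty_or_nonempty with he | hne
  · refine IH S h0 fun f hf => ?_
    have h1 : e f = 0 := by
      by_contra h
      have h2 : f ∈ S.filter fun f => e f ≠ 0 := Finset.mem_filter.2 ⟨hf, h⟩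
      rw [he] at h2
      exact Finset.notMem_empty _ h2
    rw [(hr f hf).2, h1, zero_smul, zero_add]
    exact (hr f hf).1
  · obtain ⟨f0, hf0, hmin⟩ := Finset.exists_min_image _
      (fun f => hM.fv (w + (e f)⁻¹ • r f)) hne
    rw [Finset.mem_filter] at hf0
    set g0 : M := (e f0)⁻¹ • r f0 with hg0
    have hg0F : g0 ∈ F := F.smul_mem _ (hr f0 hf0.1).1
    refine step1 hM E htE hE2 hD F IH (w + g0) (fun h => hw ?_) (S.filter fun f => e f = 0)
      (fun h => h0 (Finset.mem_filter.1 h).1) (fun f hf => ?_)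
      ((S.filter fun f => e f ≠ 0).image fun f => (e f, (e f)⁻¹ • r f - g0)) (fun x hx => ?_)
      S (fun f hf => ?_)
    · have := F.sub_mem h hg0F
      rwa [add_sub_cancel_right] at this
    · rw [Finset.mem_filter] at hf
      rw [(hr f hf.1).2, hf.2, zero_smul, zero_add]
      exact (hr f hf.1).1
    · obtain ⟨f, hf, rfl⟩ := Finset.mem_image.1 hx
      have hf' := Finset.mem_filter.1 hf
      refine ⟨hf'.2, F.sub_mem (F.smul_mem _ (hr f hf'.1).1) hg0F, ?_⟩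
      have h1 : w + g0 + ((e f)⁻¹ • r f - g0) = w + (e f)⁻¹ • r f := by ring
      rw [h1]
      exact hmin f hf
    · by_cases h1 : e f = 0
      · exact Or.inl (Finset.mem_filter.2 ⟨hf, h1⟩)
      · right
        refine ⟨(e f, (e f)⁻¹ • r f - g0), Finset.mem_image.2 ⟨f, Finset.mem_filter.2 ⟨hf, h1⟩, rfl⟩,
          ?_⟩
        have h2 : w + g0 + ((e f)⁻¹ • r f - g0) = w + (e f)⁻¹ • r f := by ring
        simp only
        rw [h2, smul_add, smul_inv_smul₀ h1]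
        exact (hr f hf).2

theorem lin_map0 (hM : Mdl p σ) (E : Subfield M) (htE : σ Polynomial.X ∈ E)
    (hE2 : ∀ (z : M) (n : ℕ), n ≠ 0 → z ^ n ∈ E → z ∈ E) {D : ℕ} (hD : ¬ p ∣ D)
    (T : Finset M) : ∀ S : Finset M, (0 : M) ∉ S → (∀ f ∈ S, f ∈ Submodule.span E (T : Set M)) →
      ∃ φ, Good hM E D S φ := by
  classical
  induction T using Finset.induction_on with
  | empty =>
    intro S h0 hS
    rcases S.eq_empty_or_nonempty with rfl | ⟨f, hf⟩
    · exact ⟨0, fun f hf => absurd hf (Finset.notMem_empty _),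
        fun f hf => absurd hf (Finset.notMem_empty _)⟩
    · have := hS f hf
      rw [Finset.coe_empty, Submodule.span_empty, Submodule.mem_bot] at this
      exact absurd (this ▸ hf) h0
  | insert w T _ ih =>
    intro S h0 hS
    rw [Finset.coe_insert] at hS
    by_cases hw : w ∈ Submodule.span E (T : Set M)
    · refine ih S h0 fun f hf => ?_
      have := hS f hf
      rwa [Submodule.span_insert_eq_span hw] at this
    · exact step2 hM E htE hE2 hD _ ih w hw S h0 fun f hf => Submodule.mem_span_insert.1 (hS f hf)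

/-- DS-1: linear functionals which preserve power classes and the valuation -/
theorem lin_map (hM : Mdl p σ)
    (j : k0 p →+* M) (hj : ∀ f, j (sig0 p f) = σ f) (E : Subfield M) (hE1 : ∀ a, j a ∈ E)
    (hE2 : ∀ (z : M) (n : ℕ), n ≠ 0 → z ^ n ∈ E → z ∈ E) {D : ℕ} (hD : ¬ p ∣ D)
    (S : Finset M) (hS : (0 : M) ∉ S) :
    ∃ φ : M →ₗ[E] E, φ 1 = 1 ∧ (∀ f ∈ S, ∃ m : M, m ≠ 0 ∧ (φ f : M) = f * m ^ D) ∧
      ∀ f ∈ S, ∀ g ∈ S, hM.fv f ≤ hM.fv g → hM.fv (φ f : M) ≤ hM.fv (φ g : M) := by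
  classical
  have htE : σ Polynomial.X ∈ E := by
    rw [← hj]
    exact hE1 _
  obtain ⟨φ, h1, h2⟩ := lin_map0 hM E htE hE2 hD (insert 1 S) (insert 1 S) (by
    rw [Finset.mem_insert, not_or]
    exact ⟨zero_ne_one, hS⟩) (fun f hf => Submodule.subset_span (Finset.mem_coe.2 hf))
  obtain ⟨m, hm, hm1⟩ := h1 1 (Finset.mem_insert_self _ _)
  rw [one_mul] at hm1
  have hφ1 : (φ 1 : M) ≠ 0 := by
    rw [hm1]
    exact pow_ne_zero _ hm
  have hφ1' : φ 1 ≠ 0 := fun h => hφ1 (by rw [h]; rfl)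
  have hval : ∀ f, (((φ 1)⁻¹ • φ) f : M) = (φ 1 : M)⁻¹ * φ f := by
    intro f
    rw [LinearMap.smul_apply, smul_eq_mul, Subfield.coe_mul, Subfield.coe_inv]
  refine ⟨(φ 1)⁻¹ • φ, ?_, fun f hf => ?_, fun f hf g hg hfg => ?_⟩
  · rw [LinearMap.smul_apply, smul_eq_mul, inv_mul_cancel₀ hφ1']
  · obtain ⟨n, hn, hn1⟩ := h1 f (Finset.mem_insert_of_mem hf)
    refine ⟨n / m, div_ne_zero hn hm, ?_⟩
    rw [hval, hn1, hm1, div_pow]
    field_simp
  · rw [hval, hval, map_mul, map_mul]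
    exact mul_le_mul_right ((h2 f (Finset.mem_insert_of_mem hf) g (Finset.mem_insert_of_mem hg)).1
      hfg) _

end final

end DS90
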