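import Pool.Agent.DS90.Core
import Pool.Agent.DS90.Dec

/-!
# Systems over a base of dimension one over `F_p((t))`
-/

set_option maxSynthPendingDepth 10

namespace DS90

open FT80 BF80 LD90

/-- the decision procedure -/
theorem systems (p : ℕ) [Fact p.Prime] :
    ∃ D : Inp → Bool, Computable D ∧ ∀ a : Inp, Adm p a → (D a = true ↔
      PSol (HahnSeries.single 1 1 : LaurentSeries (ZMod p))
        (fun x y => ∃ c : PowerSeries (ZMod p), (c : LaurentSeries (ZMod p)) * x = y) a) :=
  decide_psol p fun _ _ _ hM a ha => (psol_k0 hM a ha).trans (psol_k0 mdl_KK a ha).symm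

end DS90
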